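import Pool.Agent.TH714.TD.Asm3

/-!
# Groups of prescribed transitivity degree (helper714)
-/

set_option autoImplicit false

namespace Pool.Agent.TH714.TD

open Pool.Agent.TH65.B

/-- the case `k = 1`: the infinite cyclic group -/
theorem case_one : ∃ (G : Type) (_ : Group G), Infinite G ∧ Countable G ∧
    (∃ (X : Type) (_ : MulAction G X),
        Nonempty (Fin 1 ↪ X) ∧
        (∀ g : G, (∀ x : X, g • x = x) → g = 1) ∧
        ∀ x y : Fin 1 ↪ X, ∃ g : G, ∀ i, g • x i = y i) ∧
    ∀ (X : Type) (_ : MulAction G X),
        Nonempty (Fin (1 + 1) ↪ X) →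
        (∀ g : G, (∀ x : X, g • x = x) → g = 1) →
        ¬ ∀ x y : Fin (1 + 1) ↪ X, ∃ g : G, ∀ i, g • x i = y i := by
  refine ⟨Multiplicative ℤ, inferInstance, inferInstance, inferInstance,
    ⟨Multiplicative ℤ, inferInstance, ⟨⟨fun _ => 1, fun i j _ => Subsingleton.elim i j⟩⟩, ?_, ?_⟩, ?_⟩
  · intro g hg
    have := hg 1
    simpa using this
  · intro x y
    refine ⟨y 0 * (x 0)⁻¹, ?_⟩
    intro i
    rw [Subsingleton.elim i 0]
    simp
  · intro X _ ⟨e⟩ hfaith htrans
    -- a map on two points
    have hpair : ∀ p q r s : X, p ≠ q → r ≠ s → ∃ g : Multiplicative ℤ, g • p = r ∧ g • q = s := by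
      intro p q r s hpq hrs
      have hinj : ∀ a b : X, a ≠ b → Function.Injective (![a, b] : Fin (1 + 1) → X) := by
        intro a b hab i j hij
        fin_cases i <;> fin_cases j
        · rfl
        · exact absurd hij hab
        · exact absurd hij hab.symm
        · rfl
      obtain ⟨g, hg⟩ := htrans ⟨![p, q], hinj p q hpq⟩ ⟨![r, s], hinj r s hrs⟩
      exact ⟨g, hg 0, hg 1⟩
    obtain ⟨p, q, hpq⟩ : ∃ p q : X, p ≠ q := ⟨e 0, e 1, fun h => by
      have := e.injective h
      exact absurd this (by decide)⟩
    -- stabilizers are trivial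
    have hstab : ∀ g : Multiplicative ℤ, ∀ x : X, g • x = x → g = 1 := by
      intro g x hx
      apply hfaith
      intro y
      by_cases hxy : x = y
      · rw [← hxy, hx]
      · obtain ⟨h, h1, -⟩ := hpair x y y x hxy (fun h => hxy h.symm)
        rw [← h1, ← mul_smul, mul_comm, mul_smul, hx]
    have hall : ∀ r : X, r = p ∨ r = q := by
      intro r
      by_contra hcon
      push Not at hcon
      obtain ⟨g, h1, h2⟩ := hpair p q p r hpq hcon.1.symm
      have h3 := hstab g p h1
      rw [h3, one_smul] at h2
      exact hcon.2 h2.symm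
    have key : ∀ g : Multiplicative ℤ, g ≠ 1 → g * g = 1 := by
      intro g hg
      have h1 : g • p = q := by
        rcases hall (g • p) with h | h
        · exact absurd (hstab g p h) hg
        · exact h
      have h2 : g • q = p := by
        rcases hall (g • q) with h | h
        · exact h
        · exact absurd (hstab g q h) hg
      apply hstab (g * g) p
      rw [mul_smul, h1, h2]
    have h5 := key (Multiplicative.ofAdd 1) (by decide)
    exact absurd h5 (by decide)

/-- the case `k ≥ 2` -/
theorem case_two (k : ℕ) (hk : 2 ≤ k) : ∃ (G : Type) (_ : Group G), Infinite G ∧ Countable G ∧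
    (∃ (X : Type) (_ : MulAction G X),
        Nonempty (Fin k ↪ X) ∧
        (∀ g : G, (∀ x : X, g • x = x) → g = 1) ∧
        ∀ x y : Fin k ↪ X, ∃ g : G, ∀ i, g • x i = y i) ∧
    ∀ (X : Type) (_ : MulAction G X),
        Nonempty (Fin (k + 1) ↪ X) →
        (∀ g : G, (∀ x : X, g • x = x) → g = 1) →
        ¬ ∀ x y : Fin (k + 1) ↪ X, ∃ g : G, ∀ i, g • x i = y i := by
  classical
  obtain ⟨R, Lh, hRn, hRL, hinf, hpair, htup⟩ := limit hk
  set X := F2 ⧸ Lh with hX
  let π := MulAction.toPermHom F2 X
  have hπ : ∀ (g : F2) (x : X), π g x = g • x := fun g x => rfl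
  have hsurj : Function.Surjective π.rangeRestrict := π.rangeRestrict_surjective
  letI act : MulAction π.range X := MulAction.compHom X π.range.subtype
  have hact : ∀ (g : F2) (x : X), (π.rangeRestrict g) • x = g • x := fun g x => rfl
  refine ⟨π.range, inferInstance, ?_, ?_, ⟨X, act, ?_, ?_, ?_⟩, ?_⟩
  · refine Infinite.of_surjective (fun g : π.range => g • ((1 : F2) : X)) ?_
    intro x
    obtain ⟨g, rfl⟩ := QuotientGroup.mk_surjective x
    refine ⟨π.rangeRestrict g, ?_⟩
    show g • ((1 : F2) : X) = _
    rw [MulAction.Quotient.smul_coe, smul_eq_mul, mul_one]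
  · exact hsurj.countable
  · exact ⟨(Fin.valEmbedding).trans (Infinite.natEmbedding X)⟩
  · intro g hg
    apply Subtype.ext
    apply Equiv.ext
    intro x
    exact hg x
  · intro x y
    obtain ⟨g, hg⟩ := htup (fun i => (x i).out) (fun i => (y i).out) (by
      intro i j hij hmem
      rw [← QuotientGroup.eq, QuotientGroup.out_eq', QuotientGroup.out_eq'] at hmem
      exact hij (x.injective hmem)) (by
      intro i j hij hmem
      rw [← QuotientGroup.eq, QuotientGroup.out_eq', QuotientGroup.out_eq'] at hmem
      exact hij (y.injective hmem))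
    refine ⟨π.rangeRestrict g, fun i => ?_⟩
    rw [hact]
    have h1 := hg i
    rw [mul_assoc, ← QuotientGroup.eq, QuotientGroup.out_eq'] at h1
    rw [h1]
    conv_lhs => rw [← QuotientGroup.out_eq' (x i)]
    rfl
  · intro X' _ ⟨p⟩ _ htrans
    obtain ⟨gα, hα⟩ := htrans p ((finRotate (k + 1)).toEmbedding.trans p)
    obtain ⟨gβ, hβ⟩ := htrans p ((Equiv.swap 0 (finRotate (k + 1) 0)).toEmbedding.trans p)
    obtain ⟨u, rfl⟩ := hsurj gα
    obtain ⟨v, rfl⟩ := hsurj gβ
    obtain ⟨W, hW1, hW2⟩ := hpair u v
    have key : ∀ W : F2, ∀ i, (π.rangeRestrict (sb u v W)) • p i = p (tau k W i) := by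
      intro W
      have hgen : ∀ j : Fin 2, ∀ i, (π.rangeRestrict (sb u v (FreeGroup.of j))) • p i =
          p (tau k (FreeGroup.of j) i) := by
        intro j i
        fin_cases j
        · have h1 := hα i
          show (π.rangeRestrict (sb u v (FreeGroup.of 0))) • p i = _
          rw [sb_zero, h1]
          unfold tau
          show _ = p ((FreeGroup.lift ![finRotate (k + 1), Equiv.swap 0 (finRotate (k + 1) 0)]
            (FreeGroup.of 0)) i)
          rw [FreeGroup.lift_apply_of]
          rfl
        · have h1 := hβ i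
          show (π.rangeRestrict (sb u v (FreeGroup.of 1))) • p i = _
          rw [sb_one, h1]
          unfold tau
          show _ = p ((FreeGroup.lift ![finRotate (k + 1), Equiv.swap 0 (finRotate (k + 1) 0)]
            (FreeGroup.of 1)) i)
          rw [FreeGroup.lift_apply_of]
          rfl
      induction W using FreeGroup.induction_on with
      | C1 =>
        intro i
        simp
      | of j => exact hgen j
      | inv_of j _ =>
        intro i
        rw [map_inv, map_inv, map_inv, inv_smul_eq_iff, hgen j]
        congr 1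
        simp
      | mul a b ha hb =>
        intro i
        rw [map_mul, map_mul, map_mul, mul_smul, hb, ha]
        rfl
    have htriv : π.rangeRestrict (sb u v W) = 1 := by
      apply Subtype.ext
      apply Equiv.ext
      intro x
      obtain ⟨g, rfl⟩ := QuotientGroup.mk_surjective x
      show (sb u v W) • ((g : F2) : X) = ((g : F2) : X)
      rw [MulAction.Quotient.smul_coe, smul_eq_mul, Eq.comm, QuotientGroup.eq]
      apply hRL
      have := hRn.conj_mem _ hW2 g⁻¹
      rwa [inv_inv, mul_assoc] at this
    apply hW1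
    apply Equiv.ext
    intro i
    have h1 := key W i
    rw [htriv, one_smul] at h1
    exact (p.injective h1).symm

/-- **groups of transitivity degree exactly `k`** -/
theorem main : ∀ k : ℕ, 1 ≤ k →
      ∃ (G : Type) (_ : Group G), Infinite G ∧ Countable G ∧
        (∃ (X : Type) (_ : MulAction G X),
            Nonempty (Fin k ↪ X) ∧
            (∀ g : G, (∀ x : X, g • x = x) → g = 1) ∧
            ∀ x y : Fin k ↪ X, ∃ g : G, ∀ i, g • x i = y i) ∧
        ∀ (X : Type) (_ : MulAction G X),
            Nonempty (Fin (k + 1) ↪ X) →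
            (∀ g : G, (∀ x : X, g • x = x) → g = 1) →
            ¬ ∀ x y : Fin (k + 1) ↪ X, ∃ g : G, ∀ i, g • x i = y i := by
  intro k hk
  rcases lt_or_eq_of_le hk with h | h
  · exact case_two k h
  · rw [← h]
    exact case_one

end Pool.Agent.TH714.TD
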