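import Pool.Agent.TH714.TD.Lemmas

/-!
# One stage: the quotient step and the extension step (helper714)
-/

set_option autoImplicit false

namespace Pool.Agent.TH714.TD

open Pool.Agent.TH64 Pool.Agent.TH63.RD Pool.Agent.TH65.B
open Pool.Agent.TH558.BL (exists_prime)

/-- the properties of one stage -/
structure Lv (k : ℕ) {Q : Type} [Group Q] (H : Hyp Q) (L : Subgroup Q) : Prop where
  lev : ∃ (E : ℝ) (Ps : Finset ℕ), 1 ≤ E ∧ LevP H E Ps ∧ (∀ p ∈ Ps, p.Prime ∧ Odd p) ∧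
    (∀ p ∈ Ps, ∀ q ∈ Ps, ¬ p ∣ q - 1)
  qc : ∃ k0, H.QC (L : Set Q) k0
  few : Few L k
  nc : ∃ a b : Q, a * b ≠ b * a
  many : ∃ h : Fin (k + 1) → Q, ∀ i j, i ≠ j → (h i)⁻¹ * h j ∉ L

theorem exists_root' {k : ℕ} {Q : Type} [Group Q] {H : Hyp Q} {L : Subgroup Q} (h : Lv k H L)
    (γ : Q) (hγ : ¬ IsOfFinOrder γ) :
    ∃ x : Q, (∃ j : ℤ, x ^ j = γ ∧ j ≠ 0) ∧ ¬ IsOfFinOrder x ∧ Nonempty (Ax H x) := by
  obtain ⟨E, Ps, hE, hL, hPs, hsep⟩ := h.lev
  exact exists_root hL hPs γ hγ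

/-- the quotient step -/
theorem quo_step {k : ℕ} {Q : Type} [Group Q] {H : Hyp Q} {L : Subgroup Q} (h : Lv k H L)
    {x : Q} (A : Ax H x) (hfix : Fixes L x) (Z : Set Q) (hZ : Z.Finite) (hZL : ∀ z ∈ Z, z ∉ L)
    (B : ℕ) : ∃ N : ℕ, N.Prime ∧ B ≤ N ∧ ∃ (M : Subgroup Q) (_ : M.Normal) (H' : Hyp (Q ⧸ M)),
      x ^ N ∈ M ∧ Lv k H' (L.map (QuotientGroup.mk' M)) ∧
      (∀ z ∈ Z, (z : Q ⧸ M) ∉ L.map (QuotientGroup.mk' M)) := by
  classical
  obtain ⟨E, Ps, hE, hL, hPs, hsep⟩ := h.lev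
  obtain ⟨k0, hQ⟩ := h.qc
  obtain ⟨ca, cb, hab⟩ := h.nc
  obtain ⟨hm, hhm⟩ := h.many
  have hpig := pigL A.toPAx L k0 hQ
  have hcl := closing A L hfix hpig
  have hkey := keyK A L hcl (goodz A) (corner A)
  obtain ⟨N1, h1⟩ := quo_QC A L k0 hQ hcl
  obtain ⟨N2, h2⟩ := quo_out A L hcl
    (Z ∪ Set.range (fun p : {p : Fin (k + 1) × Fin (k + 1) // p.1 ≠ p.2} =>
      (hm p.1.1)⁻¹ * hm p.1.2)) (hZ.union (Set.finite_range _)) (by
      rintro z (hz | ⟨p, rfl⟩)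
      · exact hZL z hz
      · exact hhm _ _ p.2)
  obtain ⟨N3, h3⟩ := quo_few A L hkey k h.few
  obtain ⟨N0, hN0⟩ := stepP hE (lt_add_one E) hPs hL A {ca * cb * ca⁻¹ * cb⁻¹}
    (Set.finite_singleton _)
  obtain ⟨N, hNp, hNB, hNodd, hNs⟩ := exists_prime Ps hPs (N0 + N1 + N2 + N3 + B +
    (40 * A.th + 1) + 2)
  obtain ⟨⟨H', hH', hL'⟩, hinj, hord⟩ := hN0 N (by omega) hNp
  have hF := fill_normalClosure A N (by omega)
  refine ⟨N, hNp, by omega, Subgroup.normalClosure ({x ^ N} : Set Q),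
    Subgroup.normalClosure_normal, H', Subgroup.subset_normalClosure rfl, ?_, ?_⟩
  · refine ⟨⟨E + 1, insert N Ps, by linarith, hL', ?_, ?_⟩, ⟨k0, ?_⟩, ?_, ?_, ?_⟩
    · intro p hp
      rcases Finset.mem_insert.1 hp with rfl | hp
      · exact ⟨hNp, hNodd⟩
      · exact hPs p hp
    · intro p hp q hq
      have hlt : ∀ p q : ℕ, p.Prime → q.Prime → q ≤ p → ¬ p ∣ q - 1 := by
        intro p q hp hq hqp hd
        have h1 := Nat.le_of_dvd (by have := hq.two_le; omega) hd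
        have h2 := hq.two_le
        omega
      rcases Finset.mem_insert.1 hp with hp1 | hp1
      · rcases Finset.mem_insert.1 hq with hq1 | hq1
        · rw [hp1, hq1]
          exact hlt _ _ hNp hNp le_rfl
        · rw [hp1]
          exact hlt _ _ hNp (hPs q hq1).1 (hNs q hq1).1.le
      · rcases Finset.mem_insert.1 hq with hq1 | hq1
        · rw [hq1]
          exact (hNs p hp1).2
        · exact hsep p hp1 q hq1
    · exact h1 N (by omega) _ hF H' hH'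
    · exact h3 N (by omega) _ hF
    · refine ⟨(ca : Q ⧸ _), (cb : Q ⧸ _), ?_⟩
      intro hcom
      have h5 := hinj _ rfl (by
        rw [← QuotientGroup.eq_one_iff, QuotientGroup.mk_mul, QuotientGroup.mk_mul,
          QuotientGroup.mk_mul, hcom, QuotientGroup.mk_inv, QuotientGroup.mk_inv]
        group)
      apply hab
      rw [mul_inv_eq_one, mul_inv_eq_iff_eq_mul] at h5
      exact h5
    · refine ⟨fun i => (hm i : Q ⧸ _), fun i j hij => ?_⟩
      exact h2 N (by omega) _ hF _ (Or.inr ⟨⟨(i, j), hij⟩, rfl⟩)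
  · intro z hz
    exact h2 N (by omega) _ hF z (Or.inl hz)

/-- the subgroup has infinite index -/
theorem Lv.inf {k : ℕ} {Q : Type} [Group Q] {H : Hyp Q} {L : Subgroup Q} (h : Lv k H L) :
    Infinite (Q ⧸ L) := by
  classical
  by_contra hfin
  rw [not_infinite_iff_finite] at hfin
  obtain ⟨E, Ps, hE, hL, hPs, hsep⟩ := h.lev
  obtain ⟨ca, cb, hab⟩ := h.nc
  obtain ⟨x, -, hx, -⟩ := noncomm_data hL hPs hsep ⊤ ca cb (Subgroup.mem_top _)
    (Subgroup.mem_top _) hab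
  obtain ⟨hm, hhm⟩ := h.many
  have hfi : L.FiniteIndex := Subgroup.finiteIndex_of_finite_quotient
  have hfc : L.normalCore.FiniteIndex := inferInstance
  have hmem : x ^ (L.normalCore.index) ∈ L.normalCore := Subgroup.pow_index_mem _ x
  have hidx : L.normalCore.index ≠ 0 := hfc.index_ne_zero
  obtain ⟨i, j, hij, hmem2⟩ := h.few (x ^ L.normalCore.index) (by
    rw [isOfFinOrder_pow]
    push Not
    exact ⟨hx, hidx⟩) hm (by
    intro i
    apply Subgroup.normalCore_le L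
    have := (inferInstance : L.normalCore.Normal).conj_mem _ hmem (hm i)⁻¹
    rwa [inv_inv] at this)
  exact hhm i j hij hmem2

/-- the core statement for one stage -/
theorem core' {k : ℕ} {Q : Type} [Group Q] {H : Hyp Q} {L : Subgroup Q} (h : Lv k H L)
    {F : Type} [Group F] (φ : F →* Q) (hφ : ∃ u v : F, φ u * φ v ≠ φ v * φ u)
    (F0 : Subgroup F) [F0.Normal] [F0.FiniteIndex] (C0 : F) :
    ∃ (W : F) (y : Q), C0⁻¹ * W ∈ F0 ∧ Nonempty (Ax H y) ∧ (φ W = y ∨ φ W = y⁻¹) ∧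
      ∀ u : Q, ∀ t : ℤ, t ≠ 0 → u * y ^ t * u⁻¹ ∈ L →
        {p : Q ⧸ L | ∃ w : F, p = ((φ w * u⁻¹ : Q) : Q ⧸ L)}.Finite := by
  obtain ⟨E, Ps, hE, hL, hPs, hsep⟩ := h.lev
  obtain ⟨k0, hQ⟩ := h.qc
  exact core hL hPs hsep L k h.few (fun x A => gam_root A)
    (fun x A => gam_fix A L (pigL A.toPAx L k0 hQ)) (fun x A c hc => gam_inf A c hc)
    (fun A B hA hB hAB => neumann A B hA hB hAB) φ hφ F0 C0

/-- an element all of whose cycles are infinite -/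
theorem top_free {k : ℕ} {Q : Type} [Group Q] {H : Hyp Q} {L : Subgroup Q} (h : Lv k H L) :
    ∃ y : Q, Nonempty (Ax H y) ∧ Free L y := by
  obtain ⟨ca, cb, hab⟩ := h.nc
  obtain ⟨W, y, -, hA, -, hy⟩ := core' h (MonoidHom.id Q) ⟨ca, cb, hab⟩ ⊤ 1
  refine ⟨y, hA, ?_⟩
  intro u t ht hmem
  have hfin := hy u t ht hmem
  have hinf := h.inf
  apply Set.infinite_univ (α := Q ⧸ L)
  refine hfin.subset ?_
  intro p _
  obtain ⟨g, rfl⟩ := QuotientGroup.mk_surjective p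
  exact ⟨g * u, by simp⟩

theorem not_all {Q : Type} [Group Q] (hnc : ∃ a b : Q, a * b ≠ b * a) (x : Q) :
    ∃ c : Q, c ∉ Subgroup.zpowers x := by
  by_contra hcon
  push Not at hcon
  obtain ⟨a, b, hab⟩ := hnc
  obtain ⟨i, hi⟩ := hcon a
  obtain ⟨j, hj⟩ := hcon b
  have hi' : x ^ i = a := hi
  have hj' : x ^ j = b := hj
  apply hab
  rw [← hi', ← hj', ← zpow_add, ← zpow_add, add_comm]

/-- an element with `Sep` -/
theorem exists_sep {k : ℕ} {Q : Type} [Group Q] {H : Hyp Q} {L : Subgroup Q} (h : Lv k H L)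
    {m : ℕ} (a b : Fin m → Q) (haa : ∀ i j, i ≠ j → (a i)⁻¹ * a j ∉ L)
    (hbb : ∀ i j, i ≠ j → (b i)⁻¹ * b j ∉ L) (hab : ∀ i j, (a i)⁻¹ * b j ∉ L) :
    ∃ y : Q, Nonempty (Ax H y) ∧ Sep L y a b := by
  obtain ⟨k0, hQ⟩ := h.qc
  obtain ⟨x, ⟨A⟩, hfree⟩ := top_free h
  obtain ⟨c, hc⟩ := not_all h.nc x
  have hpig := pigL A.toPAx L k0 hQ
  obtain ⟨n1, h1⟩ := gam_root A c hc
  obtain ⟨n2, h2⟩ := gam_fix A L hpig c hc
  obtain ⟨n3, h3⟩ := gam_sep A c hc L hpig hfree (Set.range a ∪ Set.range b)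
    ((Set.finite_range a).union (Set.finite_range b))
  obtain ⟨n4, h4⟩ := gam_inf A c hc
  obtain ⟨n, hn⟩ : ∃ n, n = n1 + n2 + n3 + n4 := ⟨_, rfl⟩
  have h4' := h4 n (by omega)
  obtain ⟨y, ⟨j, hj, hj0⟩, -, hAy⟩ := exists_root' h _ h4'
  have hj1 := h1 n (by omega) y j hj
  -- powers of `y` are powers of `c x ^ n`
  have hpow : ∀ t : ℤ, ∃ t' : ℤ, (t ≠ 0 → t' ≠ 0) ∧ y ^ t = (c * x ^ n) ^ t' := by
    intro t
    rcases hj1 with h5 | h5
    · refine ⟨t, id, ?_⟩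
      rw [← hj, h5, zpow_one]
    · refine ⟨-t, fun h => neg_ne_zero.2 h, ?_⟩
      rw [← hj, h5, ← zpow_mul]
      congr 1
      ring
  refine ⟨y, hAy, ?_, ?_, ?_, ?_, ?_⟩
  · intro u t ht hmem
    obtain ⟨t', ht', he⟩ := hpow t
    rw [he] at hmem
    obtain ⟨s, hs, hs2⟩ := h2 n (by omega) u⁻¹ t' (ht' ht) (by rwa [inv_inv])
    refine hfree (u * c) s hs ?_
    rw [inv_inv] at hs2
    rwa [show u * c * x ^ s * (u * c)⁻¹ = u * (c * x ^ s * c⁻¹) * u⁻¹ by group]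
  · intro i j t hmem
    by_cases ht : t = 0
    · refine ⟨ht, ?_⟩
      by_contra hij
      apply haa i j hij
      rwa [ht, zpow_zero, mul_one] at hmem
    · exfalso
      obtain ⟨t', ht', he⟩ := hpow t
      rw [he] at hmem
      exact h3 n (by omega) (a j) (Or.inl ⟨j, rfl⟩) (a i) (Or.inl ⟨i, rfl⟩) t' (ht' ht) hmem
  · intro i j t hmem
    by_cases ht : t = 0
    · refine ⟨ht, ?_⟩
      by_contra hij
      apply hbb i j hij
      rwa [ht, zpow_zero, mul_one] at hmem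
    · exfalso
      obtain ⟨t', ht', he⟩ := hpow t
      rw [he] at hmem
      exact h3 n (by omega) (b j) (Or.inr ⟨j, rfl⟩) (b i) (Or.inr ⟨i, rfl⟩) t' (ht' ht) hmem
  · intro i j t hmem
    by_cases ht : t = 0
    · apply hab i j
      rwa [ht, zpow_zero, mul_one] at hmem
    · obtain ⟨t', ht', he⟩ := hpow t
      rw [he] at hmem
      exact h3 n (by omega) (b j) (Or.inr ⟨j, rfl⟩) (a i) (Or.inl ⟨i, rfl⟩) t' (ht' ht) hmem
  · intro i j t hmem
    by_cases ht : t = 0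
    · apply hab j i
      rw [ht, zpow_zero, mul_one] at hmem
      have := L.inv_mem hmem
      rwa [mul_inv_rev, inv_inv] at this
    · obtain ⟨t', ht', he⟩ := hpow t
      rw [he] at hmem
      exact h3 n (by omega) (a j) (Or.inl ⟨j, rfl⟩) (b i) (Or.inr ⟨i, rfl⟩) t' (ht' ht) hmem

theorem L_le_Lx {G : Type*} [Group G] {k : ℕ} (L : Subgroup G) (x c : G) (n : ℕ)
    (a b : Fin k → G) : L ≤ Lx L x c n a b := fun _ hg => Subgroup.subset_closure (Or.inl hg)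

theorem ss_mem {G : Type*} [Group G] {k : ℕ} (L : Subgroup G) (x c : G) (n : ℕ)
    (a b : Fin k → G) (s : Bool × Fin k) : ss x c n a b s ∈ Lx L x c n a b := by
  have h1 : ∀ j, (b j)⁻¹ * tt x c n * a j ∈ Lx L x c n a b :=
    fun j => Subgroup.subset_closure (Or.inr ⟨j, rfl⟩)
  unfold ss
  split_ifs
  · exact h1 _
  · have := (Lx L x c n a b).inv_mem (h1 s.2)
    rwa [mul_inv_rev, mul_inv_rev, inv_inv, ← mul_assoc] at this

/-- an infinite order element has few fixed points on the cosets of the extension -/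
theorem lx_few {k : ℕ} (hk : 0 < k) {G : Type*} [Group G] {H : Hyp G} {x : G} (A : Ax H x)
    (L : Subgroup G) (c : G) (a b : Fin k → G) (hfew : Few L k) (hch : WdChain A L c a b)
    (hc : c ∉ Subgroup.zpowers x) (hpig : PigL A.toPAx L) (hfree : Free L x) :
    ∃ n0 : ℕ, ∀ n ≥ n0, Few (Lx L x c n a b) k := by
  classical
  obtain ⟨n1, h1⟩ := common_seg A L c a b hch hc
  obtain ⟨n2, h2⟩ := no_mix A L c a b hch hpig hfree
  refine ⟨n1 + n2, ?_⟩
  intro n hn σ hσ h hmem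
  set L' := Lx L x c n a b with hL'
  by_cases hall : ∃ i, ∀ g ∈ L', (h i * g)⁻¹ * σ * (h i * g) ∉ L
  · -- all are periodic
    obtain ⟨i0, hi0⟩ := hall
    have hper : ∀ i, ∀ g ∈ L', (h i * g)⁻¹ * σ * (h i * g) ∉ L := by
      intro i g hg hgL
      obtain ⟨R, P, w, l, hR, hP0, hw, hP, hwp⟩ := exists_per hk L c a b n σ (h i0) (hmem i0) hi0
      exact h2 n (by omega) σ R P w l hR hw hP hwp (h i * g) hgL
    have hex := fun i => exists_per hk L c a b n σ (h i) (hmem i) (hper i)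
    choose R P w l hR hP0 hw hP hwp using hex
    have hcs := fun i => h1 n (by omega) σ (R 0) (R i) (P 0) (P i) (w 0) (w i) (l 0) (l i)
      (hR 0) (hR i) (hw 0) (hP 0) (hwp 0) (hw i) (hP i) (hwp i)
    choose K hK using hcs
    -- all the points of the words are in the cosets
    have hPm : ∀ i m, (h i)⁻¹ * P i m ∈ L' := by
      intro i m
      induction m with
      | zero => exact hP0 i
      | succ m ih =>
        rw [(hw i (m + 1)).step m (by omega), ← mul_assoc, ← mul_assoc]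
        exact L'.mul_mem (L'.mul_mem ih (ss_mem L x c n a b _))
          (L_le_Lx L x c n a b ((hw i (m + 1)).mem m (by omega)))
    obtain ⟨m, hm⟩ : ∃ m : ℕ, m = ∑ i, K i := ⟨_, rfl⟩
    have hKm : ∀ i, K i ≤ m := by
      intro i
      rw [hm]
      exact Finset.single_le_sum (f := K) (fun _ _ => Nat.zero_le _) (Finset.mem_univ i)
    have hcm := fun i => hK i m (hKm i)
    choose i' hi' using hcm
    set v := bs x c n a b (P 0 m) (w 0 m) with hv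
    have hvb : ∀ i, (h i)⁻¹ * (v * b (w i (i' i)).2) ∈ L' := by
      intro i
      rw [hi' i]
      unfold bs
      have h3 := hPm i (i' i)
      split_ifs with hs
      · rwa [inv_mul_cancel_right]
      · have h4 := ss_mem L x c n a b (w i (i' i))
        have h5 := L'.mul_mem h3 h4
        unfold ss at h5
        rw [if_neg hs] at h5
        have e : (h i)⁻¹ * (P i (i' i) * (a (w i (i' i)).2)⁻¹ * (tt x c n)⁻¹ * b (w i (i' i)).2) =
            (h i)⁻¹ * P i (i' i) * ((a (w i (i' i)).2)⁻¹ * (tt x c n)⁻¹ * b (w i (i' i)).2) := by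
          group
        rw [e]
        exact h5
    obtain ⟨i, j, hij, he⟩ := Fintype.exists_ne_map_eq_of_card_lt
      (fun i : Fin (k + 1) => (w i (i' i)).2) (by simp)
    refine ⟨i, j, hij, ?_⟩
    have h3 := hvb i
    have h4 := hvb j
    have he' : (w i (i' i)).2 = (w j (i' j)).2 := he
    rw [he'] at h3
    have h5 := L'.mul_mem h3 (L'.inv_mem h4)
    have e : (h i)⁻¹ * (v * b (w j (i' j)).2) * ((h j)⁻¹ * (v * b (w j (i' j)).2))⁻¹ =
        (h i)⁻¹ * h j := by group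
    rwa [e] at h5
  · -- all are conjugate into `L`
    push Not at hall
    choose g hg hgL using hall
    obtain ⟨i, j, hij, hmem2⟩ := hfew σ hσ (fun i => h i * g i) hgL
    refine ⟨i, j, hij, ?_⟩
    have h3 := L'.mul_mem (L'.mul_mem (hg i) (L_le_Lx L x c n a b hmem2)) (L'.inv_mem (hg j))
    have e : g i * ((h i * g i)⁻¹ * (h j * g j)) * (g j)⁻¹ = (h i)⁻¹ * h j := by group
    rwa [e] at h3

/-- the extension step -/
theorem add_step {k : ℕ} (hk : 0 < k) {Q : Type} [Group Q] {H : Hyp Q} {L : Subgroup Q}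
    (h : Lv k H L) (a b : Fin k → Q) (haa : ∀ i j, i ≠ j → (a i)⁻¹ * a j ∉ L)
    (hbb : ∀ i j, i ≠ j → (b i)⁻¹ * b j ∉ L) (hab : ∀ i j, (a i)⁻¹ * b j ∉ L)
    (Z : Set Q) (hZ : Z.Finite) (hZL : ∀ z ∈ Z, z ∉ L) :
    ∃ L' : Subgroup Q, Lv k H L' ∧ L ≤ L' ∧ (∀ z ∈ Z, z ∉ L') ∧
      ∃ g : Q, ∀ j, (b j)⁻¹ * g * a j ∈ L' := by
  classical
  obtain ⟨k0, hQ⟩ := h.qc
  obtain ⟨hm, hhm⟩ := h.many
  obtain ⟨x, ⟨A⟩, hS⟩ := exists_sep h a b haa hbb hab
  obtain ⟨c, hc⟩ := not_all h.nc x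
  have hpig := pigL A.toPAx L k0 hQ
  have hch : WdChain A L c a b := wd_chain A L c a b hpig hc hS
  have hwd : ExWd x L c a b := fun n g hg => exists_wd hk L c a b n g hg
  obtain ⟨n1, h1⟩ := lx_out A L c a b hch hwd
    (Z ∪ Set.range (fun p : {p : Fin (k + 1) × Fin (k + 1) // p.1 ≠ p.2} =>
      (hm p.1.1)⁻¹ * hm p.1.2)) (hZ.union (Set.finite_range _)) (by
      rintro z (hz | ⟨p, rfl⟩)
      · exact hZL z hz
      · exact hhm _ _ p.2)
  obtain ⟨n2, h2⟩ := lx_QC A L k0 hQ c a b hch hwd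
  obtain ⟨n3, h3⟩ := lx_few hk A L c a b h.few hch hc hpig hS.free
  obtain ⟨n, hn⟩ : ∃ n, n = n1 + n2 + n3 := ⟨_, rfl⟩
  refine ⟨Lx L x c n a b, ⟨h.lev, h2 n (by omega), h3 n (by omega), h.nc, hm, fun i j hij =>
    h1 n (by omega) _ (Or.inr ⟨⟨(i, j), hij⟩, rfl⟩)⟩, L_le_Lx L x c n a b,
    fun z hz => h1 n (by omega) z (Or.inl hz), tt x c n, fun j => ?_⟩
  exact Subgroup.subset_closure (Or.inr ⟨j, rfl⟩)

/-- choosing tuples in new cosets -/
theorem new_tuple {Q : Type} [Group Q] (L : Subgroup Q) [Infinite (Q ⧸ L)] (k : ℕ)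
    (Z : Set Q) (hZ : Z.Finite) : ∃ z : Fin k → Q, (∀ i j, i ≠ j → (z i)⁻¹ * z j ∉ L) ∧
      (∀ i, ∀ y ∈ Z, y⁻¹ * z i ∉ L) := by
  classical
  have hinf : ((fun g : Q => (g : Q ⧸ L)) '' Z)ᶜ.Infinite := (hZ.image _).infinite_compl
  obtain ⟨f⟩ : Nonempty (Fin k ↪ ↥(((fun g : Q => (g : Q ⧸ L)) '' Z)ᶜ)) := by
    have : Infinite ↥(((fun g : Q => (g : Q ⧸ L)) '' Z)ᶜ) := hinf.to_subtype
    exact ⟨(Fin.valEmbedding).trans (Infinite.natEmbedding _)⟩
  refine ⟨fun i => (f i).1.out, ?_, ?_⟩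
  · intro i j hij hmem
    rw [← QuotientGroup.eq, QuotientGroup.out_eq', QuotientGroup.out_eq'] at hmem
    exact hij (f.injective (Subtype.ext hmem))
  · intro i y hy hmem
    rw [← QuotientGroup.eq, QuotientGroup.out_eq'] at hmem
    exact (f i).2 ⟨y, hy, hmem⟩

/-- the extension step for arbitrary tuples -/
theorem add_step2 {k : ℕ} (hk : 0 < k) {Q : Type} [Group Q] {H : Hyp Q} {L : Subgroup Q}
    (h : Lv k H L) (a b : Fin k → Q) (haa : ∀ i j, i ≠ j → (a i)⁻¹ * a j ∉ L)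
    (hbb : ∀ i j, i ≠ j → (b i)⁻¹ * b j ∉ L)
    (Z : Set Q) (hZ : Z.Finite) (hZL : ∀ z ∈ Z, z ∉ L) :
    ∃ L' : Subgroup Q, Lv k H L' ∧ L ≤ L' ∧ (∀ z ∈ Z, z ∉ L') ∧
      ∃ g : Q, ∀ j, (b j)⁻¹ * g * a j ∈ L' := by
  classical
  have hinf := h.inf
  obtain ⟨z, hzz, hz⟩ := new_tuple L k (Set.range a ∪ Set.range b)
    ((Set.finite_range a).union (Set.finite_range b))
  obtain ⟨L1, hL1, hle1, hout1, g1, hg1⟩ := add_step hk h a z haa hzz
    (fun i j => hz j (a i) (Or.inl ⟨i, rfl⟩))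
    (Z ∪ (Set.range (fun p : {p : Fin k × Fin k // p.1 ≠ p.2} => (z p.1.1)⁻¹ * z p.1.2) ∪
      (Set.range (fun p : {p : Fin k × Fin k // p.1 ≠ p.2} => (b p.1.1)⁻¹ * b p.1.2) ∪
        Set.range (fun p : Fin k × Fin k => (b p.1)⁻¹ * z p.2))))
    (hZ.union ((Set.finite_range _).union ((Set.finite_range _).union (Set.finite_range _)))) (by
      rintro y (hy | ⟨p, rfl⟩ | ⟨p, rfl⟩ | ⟨p, rfl⟩)
      · exact hZL y hy
      · exact hzz _ _ p.2
      · exact hbb _ _ p.2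
      · exact hz _ _ (Or.inr ⟨_, rfl⟩))
  obtain ⟨L2, hL2, hle2, hout2, g2, hg2⟩ := add_step hk hL1 z b
    (fun i j hij => hout1 _ (Or.inr (Or.inl ⟨⟨(i, j), hij⟩, rfl⟩)))
    (fun i j hij => hout1 _ (Or.inr (Or.inr (Or.inl ⟨⟨(i, j), hij⟩, rfl⟩))))
    (fun i j hmem => hout1 _ (Or.inr (Or.inr (Or.inr ⟨(j, i), rfl⟩))) (by
      have := L1.inv_mem hmem
      rwa [mul_inv_rev, inv_inv] at this))
    Z hZ (fun y hy => hout1 y (Or.inl hy))
  refine ⟨L2, hL2, hle1.trans hle2, hout2, g2 * g1, fun j => ?_⟩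
  have h5 := L2.mul_mem (hg2 j) (hle2 (hg1 j))
  have e : (b j)⁻¹ * g2 * z j * ((z j)⁻¹ * g1 * a j) = (b j)⁻¹ * (g2 * g1) * a j := by group
  rwa [e] at h5

end Pool.Agent.TH714.TD
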