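import Mathlib

/-!
# Words detecting the symmetric group (helper714)
-/

set_option autoImplicit false

namespace Pool.Agent.TH714.TD

open Equiv

/-- the map of the free group onto the symmetric group on `k + 1` letters -/
def tau (k : ℕ) : FreeGroup (Fin 2) →* Perm (Fin (k + 1)) :=
  FreeGroup.lift ![finRotate (k + 1), swap 0 (finRotate (k + 1) 0)]

theorem tau_surj (k : ℕ) (hk : 1 ≤ k) : Function.Surjective (tau k) := by
  rw [← MonoidHom.range_eq_top, tau, FreeGroup.range_lift_eq_closure]
  obtain ⟨m, rfl⟩ : ∃ m, k = m + 1 := ⟨k - 1, by omega⟩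
  have h1 := Perm.closure_cycle_adjacent_swap (isCycle_finRotate (n := m))
    (by rw [support_finRotate]) (0 : Fin (m + 2))
  rw [← h1]
  congr 1
  ext f
  simp only [Set.mem_range, Set.mem_insert_iff, Set.mem_singleton_iff]
  constructor
  · rintro ⟨i, rfl⟩
    fin_cases i
    · exact Or.inl rfl
    · exact Or.inr rfl
  · rintro (rfl | rfl)
    · exact ⟨0, rfl⟩
    · exact ⟨1, rfl⟩

/-- the commutator of the generators is detected -/
theorem tau_comm (k : ℕ) (hk : 2 ≤ k) :
    tau k (FreeGroup.of 0 * FreeGroup.of 1 * (FreeGroup.of 0)⁻¹ * (FreeGroup.of 1)⁻¹) ≠ 1 := by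
  intro h
  -- then the symmetric group is commutative
  have hc : ∀ a b : Perm (Fin (k + 1)), a * b = b * a := by
    have hgen : tau k (FreeGroup.of 0) * tau k (FreeGroup.of 1) =
        tau k (FreeGroup.of 1) * tau k (FreeGroup.of 0) := by
      rw [map_mul, map_mul, map_mul, map_inv, map_inv, mul_inv_eq_one, mul_inv_eq_iff_eq_mul] at h
      exact h
    have h1 : ∀ w : FreeGroup (Fin 2), ∀ i : Fin 2, tau k w * tau k (FreeGroup.of i) =
        tau k (FreeGroup.of i) * tau k w := by
      intro w i
      have h2 : ∀ j : Fin 2, Commute (tau k (FreeGroup.of j)) (tau k (FreeGroup.of i)) := by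
        intro j
        fin_cases i <;> fin_cases j
        · exact Commute.refl _
        · exact hgen.symm
        · exact hgen
        · exact Commute.refl _
      induction w using FreeGroup.induction_on with
      | C1 => simp
      | of j => exact h2 j
      | inv_of j _ =>
        rw [map_inv]
        exact (h2 j).inv_left
      | mul a b ha hb =>
        rw [map_mul]
        exact (Commute.mul_left (a := tau k a) (b := tau k b) ha hb)
    have h2 : ∀ w w' : FreeGroup (Fin 2), tau k w * tau k w' = tau k w' * tau k w := by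
      intro w w'
      induction w' using FreeGroup.induction_on with
      | C1 => simp
      | of j => exact h1 w j
      | inv_of j _ =>
        rw [map_inv]
        exact (show Commute (tau k w) (tau k (FreeGroup.of j)) from h1 w j).inv_right
      | mul a b ha hb =>
        rw [map_mul]
        exact (Commute.mul_right (b := tau k a) (c := tau k b) ha hb)
    intro a b
    obtain ⟨w, rfl⟩ := tau_surj k (by omega) a
    obtain ⟨w', rfl⟩ := tau_surj k (by omega) b
    exact h2 w w'
  obtain ⟨p0, p1, p2, h0, h2, h12⟩ : ∃ p0 p1 p2 : Fin (k + 1), p0 ≠ p1 ∧ p0 ≠ p2 ∧ p1 ≠ p2 := by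
    refine ⟨⟨0, by omega⟩, ⟨1, by omega⟩, ⟨2, by omega⟩, ?_, ?_, ?_⟩ <;>
    · intro h
      have := congrArg Fin.val h
      simp at this
  have h3 := hc (swap p0 p1) (swap p1 p2)
  have h4 := congrArg (fun f : Perm (Fin (k + 1)) => f p2) h3
  simp only [Perm.mul_apply, swap_apply_right] at h4
  rw [swap_apply_of_ne_of_ne h2.symm h12.symm, swap_apply_right] at h4
  exact h0 h4

/-- a homomorphism to a small group does not control `tau` -/
theorem exists_C0 (k : ℕ) (hk : 1 ≤ k) {P : Type*} [Group P] [Finite P]
    (hP : Nat.card P ≤ k.factorial) (ρ : FreeGroup (Fin 2) →* P) :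
    ∃ C0 : FreeGroup (Fin 2), ρ C0 = 1 ∧ tau k C0 ≠ 1 := by
  by_contra hcon
  push Not at hcon
  have hle : ρ.ker ≤ (tau k).ker := fun w hw => hcon w hw
  have h1 := Subgroup.index_dvd_of_le hle
  rw [Subgroup.index_ker, Subgroup.index_ker] at h1
  have h2 : Nat.card (tau k).range = (k + 1).factorial := by
    rw [MonoidHom.range_eq_top.2 (tau_surj k hk), Subgroup.card_top, Nat.card_perm,
      Nat.card_eq_fintype_card, Fintype.card_fin]
  have h3 : Nat.card ρ.range ≤ k.factorial := by
    refine le_trans ?_ hP
    exact Nat.card_le_card_of_injective _ ρ.range.subtype_injective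
  have h4 : 0 < Nat.card ρ.range := Nat.card_pos
  have h5 := Nat.le_of_dvd h4 h1
  rw [h2, Nat.factorial_succ] at h5
  have h6 := Nat.factorial_pos k
  nlinarith

/-- prime powers do not kill -/
theorem pow_prime_ne (k : ℕ) (g : Perm (Fin (k + 1))) (hg : g ≠ 1) (N : ℕ) (hN : N.Prime)
    (hNk : (k + 1).factorial < N) : g ^ N ≠ 1 := by
  intro h
  have h1 : orderOf g ∣ N := orderOf_dvd_of_pow_eq_one h
  rcases (Nat.dvd_prime hN).1 h1 with h2 | h2
  · exact hg (orderOf_eq_one_iff.1 h2)
  · have h3 : orderOf g ∣ (k + 1).factorial := by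
      have := orderOf_dvd_natCard g
      rwa [Nat.card_perm, Nat.card_eq_fintype_card, Fintype.card_fin] at this
    have h4 := Nat.le_of_dvd (Nat.factorial_pos _) h3
    omega

end Pool.Agent.TH714.TD
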