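import Pool.Agent.TH714.TD.Asm1
import Pool.Agent.TH714.TD.Perm
import Pool.Agent.TH65.B.Limit

/-!
# The tower (helper714)
-/

set_option autoImplicit false

namespace Pool.Agent.TH714.TD

open Pool.Agent.TH64 Pool.Agent.TH63.RD Pool.Agent.TH65.B

/-- there are at most `k` finite orbits points -/
theorem fin_orbits {k : ℕ} {Q : Type} [Group Q] {H : Hyp Q} {L : Subgroup Q} (h : Lv k H L)
    {F : Type} [Group F] (φ : F →* Q) (hφ : ∃ u v : F, φ u * φ v ≠ φ v * φ u) :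
    {p : Q ⧸ L | {q : Q ⧸ L | ∃ w : F, q = φ w • p}.Finite}.encard ≤ k := by
  classical
  by_contra hcon
  push Not at hcon
  obtain ⟨E, Ps, hE, hL, hPs, hsep⟩ := h.lev
  obtain ⟨u, v, huv⟩ := hφ
  obtain ⟨x, -, hx, ⟨k1, hk1, Y, hY⟩, -⟩ := noncomm_data hL hPs hsep φ.range (φ u) (φ v)
    ⟨u, rfl⟩ ⟨v, rfl⟩ huv
  -- `k + 1` points with finite orbits
  obtain ⟨T, hT, hTc⟩ := Set.exists_subset_encard_eq (k := ((k + 1 : ℕ) : ℕ∞))
    (s := {p : Q ⧸ L | {q : Q ⧸ L | ∃ w : F, q = φ w • p}.Finite})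
    (by push_cast; exact Order.add_one_le_of_lt hcon)
  have hTf : T.Finite := by
    rw [← Set.encard_ne_top_iff, hTc]
    exact ENat.natCast_ne_top _
  have hTn : hTf.toFinset.card = k + 1 := by
    have h5 := Set.encard_coe_eq_coe_finsetCard hTf.toFinset
    rw [Set.Finite.coe_toFinset, hTc] at h5
    exact_mod_cast h5.symm
  obtain ⟨f⟩ : Nonempty (Fin (k + 1) ≃ hTf.toFinset) :=
    ⟨(finCongr hTn.symm).trans (hTf.toFinset.equivFin).symm⟩
  have hfT : ∀ i, (f i : Q ⧸ L) ∈ T := fun i => hTf.mem_toFinset.1 (f i).2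
  -- a power of `φ Y` fixes each of them
  have hpow : ∀ i, ∃ t : ℕ, 0 < t ∧ (φ Y) ^ t • (f i : Q ⧸ L) = (f i : Q ⧸ L) := by
    intro i
    have hfin := hT (hfT i)
    have hnin : ¬ Set.InjOn (fun t : ℕ => (φ Y) ^ t • (f i : Q ⧸ L)) Set.univ := by
      intro hinj
      refine Set.infinite_univ (α := ℕ) (Set.Finite.of_finite_image (hfin.subset ?_) hinj)
      rintro _ ⟨t, -, rfl⟩
      exact ⟨Y ^ t, by rw [map_pow]⟩
    unfold Set.InjOn at hnin
    push Not at hnin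
    obtain ⟨s, -, t, -, hst, hne⟩ := hnin
    have hst' : (φ Y) ^ s • (f i : Q ⧸ L) = (φ Y) ^ t • (f i : Q ⧸ L) := hst
    rcases lt_or_gt_of_ne hne with hlt | hlt
    · refine ⟨t - s, by omega, ?_⟩
      have h5 : (φ Y) ^ t = (φ Y) ^ s * (φ Y) ^ (t - s) := by rw [← pow_add]; congr 1; omega
      rw [h5, mul_smul] at hst'
      exact (smul_left_cancel _ hst').symm
    · refine ⟨s - t, by omega, ?_⟩
      have h5 : (φ Y) ^ s = (φ Y) ^ t * (φ Y) ^ (s - t) := by rw [← pow_add]; congr 1; omega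
      rw [h5, mul_smul] at hst'
      exact smul_left_cancel _ hst'
  choose t ht htf using hpow
  obtain ⟨N, hN⟩ : ∃ N : ℕ, N = ∏ i, t i := ⟨_, rfl⟩
  have hN0 : 0 < N := by
    rw [hN]
    exact Finset.prod_pos (fun i _ => ht i)
  have hNf : ∀ i, (φ Y) ^ N • (f i : Q ⧸ L) = (f i : Q ⧸ L) := by
    intro i
    obtain ⟨m, hm⟩ : t i ∣ N := by
      rw [hN]
      exact Finset.dvd_prod_of_mem t (Finset.mem_univ i)
    rw [hm, pow_mul]
    have key : ∀ m : ℕ, ((φ Y) ^ t i) ^ m • (f i : Q ⧸ L) = (f i : Q ⧸ L) := by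
      intro m
      induction m with
      | zero => simp
      | succ m ih => rw [pow_succ, mul_smul, htf, ih]
    exact key m
  have hinf : ¬ IsOfFinOrder ((φ Y) ^ N) := by
    rw [isOfFinOrder_pow, hY]
    push Not
    refine ⟨?_, by omega⟩
    intro h5
    apply hx
    rcases Int.natAbs_eq k1 with h6 | h6
    · rw [h6, zpow_natCast, isOfFinOrder_pow] at h5
      rcases h5 with h5 | h5
      · exact h5
      · omega
    · rw [h6, zpow_neg, isOfFinOrder_inv_iff, zpow_natCast, isOfFinOrder_pow] at h5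
      rcases h5 with h5 | h5
      · exact h5
      · omega
  obtain ⟨i, j, hij, hmem⟩ := h.few ((φ Y) ^ N) hinf (fun i => (f i : Q ⧸ L).out) (by
    intro i
    have h5 := hNf i
    rw [← QuotientGroup.out_eq' (f i : Q ⧸ L)] at h5
    have h6 : (((φ Y) ^ N * (f i : Q ⧸ L).out : Q) : Q ⧸ L) = (((f i : Q ⧸ L).out : Q) : Q ⧸ L) := h5
    have h7 := QuotientGroup.eq.1 h6.symm
    rwa [← mul_assoc] at h7)
  rw [← QuotientGroup.eq, QuotientGroup.out_eq', QuotientGroup.out_eq'] at hmem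
  exact hij (f.injective (Subtype.ext hmem))

/-- a word and an element to be killed -/
theorem pair_core {k : ℕ} (hk : 1 ≤ k) {Q : Type} [Group Q] {H : Hyp Q} {L : Subgroup Q}
    (h : Lv k H L) (φ : F2 →* Q) (hφ : ∃ u v : F2, φ u * φ v ≠ φ v * φ u) :
    ∃ (W : F2) (y : Q), tau k W ≠ 1 ∧ Nonempty (Ax H y) ∧ (φ W = y ∨ φ W = y⁻¹) ∧
      Fixes L y := by
  classical
  set X : Set (Q ⧸ L) := {p | {q : Q ⧸ L | ∃ w : F2, q = φ w • p}.Finite} with hX
  have hXc : X.encard ≤ k := fin_orbits h φ hφ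
  have hXf : X.Finite := by
    rw [← Set.encard_ne_top_iff]
    intro h5
    rw [h5] at hXc
    exact absurd hXc (by simp)
  have hinv : ∀ (w : F2) (p : Q ⧸ L), p ∈ X → φ w • p ∈ X := by
    intro w p hp
    refine Set.Finite.subset hp ?_
    rintro q ⟨w', rfl⟩
    exact ⟨w' * w, by rw [map_mul, mul_smul]⟩
  have hinv' : ∀ (w : F2) (p : Q ⧸ L), MulAction.toPerm (φ w) p ∈ X ↔ p ∈ X := by
    intro w p
    constructor
    · intro hp
      have h5 := hinv w⁻¹ _ hp
      have h6 : φ w⁻¹ • (MulAction.toPerm (φ w) p) = p := by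
        show φ w⁻¹ • (φ w • p) = p
        rw [← mul_smul, ← map_mul, inv_mul_cancel, map_one, one_smul]
      rwa [h6] at h5
    · exact hinv w p
  have : Finite X := hXf.to_subtype
  -- the action on the finite orbit points
  let ρ : F2 →* Equiv.Perm X := MonoidHom.mk' (fun w =>
    (MulAction.toPerm (φ w) : Equiv.Perm (Q ⧸ L)).subtypePerm (fun p => hinv' w p)) (by
      intro a b
      apply Equiv.ext
      intro p
      apply Subtype.ext
      show φ (a * b) • (p : Q ⧸ L) = φ a • (φ b • (p : Q ⧸ L))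
      rw [map_mul, mul_smul])
  have hρ : ∀ w, ρ w = 1 → ∀ p ∈ X, φ w • p = p := by
    intro w hw p hp
    have h5 : (ρ w ⟨p, hp⟩ : Q ⧸ L) = p := by rw [hw]; rfl
    exact h5
  have hcard : Nat.card (Equiv.Perm X) ≤ k.factorial := by
    rw [Nat.card_perm]
    apply Nat.factorial_le
    rw [Nat.card_coe_set_eq]
    have h6 : (X.ncard : ℕ∞) = X.encard := hXf.cast_ncard_eq
    rw [← h6] at hXc
    exact_mod_cast hXc
  obtain ⟨C0, hC0, hC1⟩ := exists_C0 k hk hcard ρ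
  have hf1 : ρ.ker.FiniteIndex := inferInstance
  have hf2 : (tau k).ker.FiniteIndex := inferInstance
  have hf3 : (ρ.ker ⊓ (tau k).ker).FiniteIndex := inferInstance
  obtain ⟨W, y, hW, hA, hWy, hy⟩ := core' h φ hφ (ρ.ker ⊓ (tau k).ker) C0
  have hW1 : ρ W = 1 := by
    have := (Subgroup.mem_inf.1 hW).1
    rw [MonoidHom.mem_ker, map_mul, map_inv, hC0, inv_one, one_mul] at this
    exact this
  have hW2 : tau k W = tau k C0 := by
    have := (Subgroup.mem_inf.1 hW).2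
    rw [MonoidHom.mem_ker, map_mul, map_inv, inv_mul_eq_one] at this
    exact this.symm
  refine ⟨W, y, by rw [hW2]; exact hC1, hA, hWy, ?_⟩
  rintro u ⟨t, ht, hmem⟩
  have hfin := hy u t ht hmem
  have hu : ((u⁻¹ : Q) : Q ⧸ L) ∈ X := hfin
  have h7 := hρ W hW1 _ hu
  have h8 : ((φ W * u⁻¹ : Q) : Q ⧸ L) = ((u⁻¹ : Q) : Q ⧸ L) := h7
  have h9 := QuotientGroup.eq.1 h8.symm
  rw [inv_inv, ← mul_assoc] at h9
  rcases hWy with h10 | h10
  · rwa [h10] at h9
  · rw [h10] at h9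
    have := L.inv_mem h9
    rwa [mul_inv_rev, mul_inv_rev, inv_inv, inv_inv, ← mul_assoc] at this

end Pool.Agent.TH714.TD
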