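import Pool.Agent.TH714.TD.Asm2

/-!
# The tower and its limit (helper714)
-/

set_option autoImplicit false

namespace Pool.Agent.TH714.TD

open Pool.Agent.TH64 Pool.Agent.TH63.RD Pool.Agent.TH65.B

/-- the data of one stage, in the free group -/
structure Sg (k : ℕ) where
  R : Subgroup F2
  Lh : Subgroup F2
  S : Finset F2
  st : ∃ (Q : Type) (_ : Group Q) (ψ : F2 →* Q) (H : Hyp Q) (L : Subgroup Q),
    Function.Surjective ψ ∧ (∀ g, ψ g = 1 ↔ g ∈ R) ∧ (∀ g, ψ g ∈ L ↔ g ∈ Lh) ∧ Lv k H L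
  dis : ∀ s ∈ S, ∀ s' ∈ S, s ≠ s' → s⁻¹ * s' ∉ Lh

/-- substituting elements in words -/
def sb (u v : F2) : F2 →* F2 := FreeGroup.lift ![u, v]

theorem sb_zero (u v : F2) : sb u v (FreeGroup.of 0) = u := by
  unfold sb
  rw [FreeGroup.lift_apply_of]
  rfl

theorem sb_one (u v : F2) : sb u v (FreeGroup.of 1) = v := by
  unfold sb
  rw [FreeGroup.lift_apply_of]
  rfl

/-- the pair step -/
theorem pair_step {k : ℕ} (hk : 2 ≤ k) (D : Sg k) (u v : F2) :
    ∃ D' : Sg k, D.R ≤ D'.R ∧ D.Lh ≤ D'.Lh ∧ D'.S = D.S ∧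
      ∃ W : F2, tau k W ≠ 1 ∧ sb u v W ∈ D'.R := by
  classical
  by_cases huv : u * v * u⁻¹ * v⁻¹ ∈ D.R
  · refine ⟨D, le_rfl, le_rfl, rfl, _, tau_comm k hk, ?_⟩
    rw [map_mul, map_mul, map_mul, map_inv, map_inv, sb_zero, sb_one]
    exact huv
  obtain ⟨Q, _, ψ, H, L, hψ, hker, hLh, hLv⟩ := D.st
  have hne : ψ u * ψ v ≠ ψ v * ψ u := comm_ne ψ D.R hker u v huv
  obtain ⟨W, y, hW, ⟨A⟩, hWy, hfix⟩ := pair_core (by omega) hLv (ψ.comp (sb u v))
    ⟨FreeGroup.of 0, FreeGroup.of 1, by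
      simp only [MonoidHom.comp_apply, sb_zero, sb_one]
      exact hne⟩
  obtain ⟨N, hNp, hNB, M, hM, H', hyN, hLv', hout⟩ := quo_step hLv A hfix
    (((D.S ×ˢ D.S).filter (fun p => p.1 ≠ p.2)).image (fun p => ψ (p.1⁻¹ * p.2)) : Finset Q)
    (Finset.finite_toSet _) (by
      intro z hz
      rw [Finset.mem_coe, Finset.mem_image] at hz
      obtain ⟨p, hp, rfl⟩ := hz
      rw [Finset.mem_filter, Finset.mem_product] at hp
      rw [hLh]
      exact D.dis _ hp.1.1 _ hp.1.2 hp.2) ((k + 1).factorial + 1)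
  refine ⟨{ R := M.comap ψ, Lh := (L.map (QuotientGroup.mk' M)).comap
              ((QuotientGroup.mk' M).comp ψ), S := D.S,
            st := ⟨Q ⧸ M, inferInstance, (QuotientGroup.mk' M).comp ψ, H',
              L.map (QuotientGroup.mk' M), (QuotientGroup.mk'_surjective M).comp hψ, ?_, ?_, hLv'⟩,
            dis := ?_ }, ?_, ?_, rfl, W ^ N, ?_, ?_⟩
  · intro g
    exact QuotientGroup.eq_one_iff _
  · intro g
    rfl
  · intro s hs s' hs' hss hmem
    refine hout (ψ (s⁻¹ * s')) ?_ hmem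
    rw [Finset.mem_coe, Finset.mem_image]
    exact ⟨(s, s'), Finset.mem_filter.2 ⟨Finset.mem_product.2 ⟨hs, hs'⟩, hss⟩, rfl⟩
  · intro r hr
    show ψ r ∈ M
    rw [(hker r).2 hr]
    exact M.one_mem
  · intro g hg
    exact ⟨ψ g, (hLh g).2 hg, rfl⟩
  · rw [map_pow]
    exact pow_prime_ne k _ hW N hNp (by omega)
  · show ψ (sb u v (W ^ N)) ∈ M
    rw [map_pow, map_pow]
    have h5 : ψ (sb u v W) = y ∨ ψ (sb u v W) = y⁻¹ := hWy
    rcases h5 with h5 | h5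
    · rw [h5]
      exact hyN
    · rw [h5, inv_pow]
      exact M.inv_mem hyN

/-- the tuple step -/
theorem tuple_step {k : ℕ} (hk : 2 ≤ k) (D : Sg k) (a b : Fin k → F2) :
    ∃ D' : Sg k, D.R ≤ D'.R ∧ D.Lh ≤ D'.Lh ∧ D'.S = D.S ∧
      ((∀ i j, i ≠ j → (a i)⁻¹ * a j ∉ D.Lh) → (∀ i j, i ≠ j → (b i)⁻¹ * b j ∉ D.Lh) →
        ∃ g : F2, ∀ j, (b j)⁻¹ * g * a j ∈ D'.Lh) := by
  classical
  by_cases hab : (∀ i j, i ≠ j → (a i)⁻¹ * a j ∉ D.Lh) ∧ (∀ i j, i ≠ j → (b i)⁻¹ * b j ∉ D.Lh)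
  swap
  · exact ⟨D, le_rfl, le_rfl, rfl, fun h1 h2 => absurd ⟨h1, h2⟩ hab⟩
  obtain ⟨haa, hbb⟩ := hab
  obtain ⟨Q, _, ψ, H, L, hψ, hker, hLh, hLv⟩ := D.st
  obtain ⟨L', hLv', hle, hout, g, hg⟩ := add_step2 (by omega) hLv (fun i => ψ (a i))
    (fun i => ψ (b i)) (fun i j hij => by
      rw [← map_inv, ← map_mul, hLh]
      exact haa i j hij) (fun i j hij => by
      rw [← map_inv, ← map_mul, hLh]
      exact hbb i j hij)
    (((D.S ×ˢ D.S).filter (fun p => p.1 ≠ p.2)).image (fun p => ψ (p.1⁻¹ * p.2)) : Finset Q)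
    (Finset.finite_toSet _) (by
      intro z hz
      rw [Finset.mem_coe, Finset.mem_image] at hz
      obtain ⟨p, hp, rfl⟩ := hz
      rw [Finset.mem_filter, Finset.mem_product] at hp
      rw [hLh]
      exact D.dis _ hp.1.1 _ hp.1.2 hp.2)
  obtain ⟨g', rfl⟩ := hψ g
  refine ⟨{ R := D.R, Lh := L'.comap ψ, S := D.S,
            st := ⟨Q, _, ψ, H, L', hψ, hker, fun g => Iff.rfl, hLv'⟩,
            dis := ?_ }, le_rfl, ?_, rfl, fun _ _ => ⟨g', fun j => ?_⟩⟩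
  · intro s hs s' hs' hss hmem
    refine hout (ψ (s⁻¹ * s')) ?_ hmem
    rw [Finset.mem_coe, Finset.mem_image]
    exact ⟨(s, s'), Finset.mem_filter.2 ⟨Finset.mem_product.2 ⟨hs, hs'⟩, hss⟩, rfl⟩
  · intro g hg
    exact hle ((hLh g).2 hg)
  · show ψ ((b j)⁻¹ * g' * a j) ∈ L'
    rw [map_mul, map_mul, map_inv]
    exact hg j

/-- one more coset -/
theorem grow_step {k : ℕ} (D : Sg k) :
    ∃ D' : Sg k, D'.R = D.R ∧ D'.Lh = D.Lh ∧ D.S ⊆ D'.S ∧ D.S.card < D'.S.card := by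
  classical
  obtain ⟨Q, _, ψ, H, L, hψ, hker, hLh, hLv⟩ := D.st
  have hinf := hLv.inf
  have h1 : ((fun g : F2 => (ψ g : Q ⧸ L)) '' (D.S : Set F2))ᶜ.Infinite :=
    (D.S.finite_toSet.image _).infinite_compl
  obtain ⟨p, hp⟩ := h1.nonempty
  obtain ⟨q, rfl⟩ := QuotientGroup.mk_surjective p
  obtain ⟨g, rfl⟩ := hψ q
  have hnew : ∀ s ∈ D.S, s⁻¹ * g ∉ D.Lh := by
    intro s hs hmem
    apply hp
    refine ⟨s, hs, ?_⟩
    show (ψ s : Q ⧸ L) = (ψ g : Q ⧸ L)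
    rw [QuotientGroup.eq, ← map_inv, ← map_mul, hLh]
    exact hmem
  have hgS : g ∉ D.S := by
    intro hg
    apply hnew g hg
    rw [inv_mul_cancel]
    exact D.Lh.one_mem
  refine ⟨{ R := D.R, Lh := D.Lh, S := insert g D.S, st := D.st, dis := ?_ }, rfl, rfl,
    Finset.subset_insert _ _, ?_⟩
  · intro s hs s' hs' hss hmem
    rcases Finset.mem_insert.1 hs with h2 | h2
    · rcases Finset.mem_insert.1 hs' with h3 | h3
      · exact hss (h2.trans h3.symm)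
      · have := D.Lh.inv_mem hmem
        rw [mul_inv_rev, inv_inv, h2] at this
        exact hnew s' h3 this
    · rcases Finset.mem_insert.1 hs' with h3 | h3
      · rw [h3] at hmem
        exact hnew s h2 hmem
      · exact D.dis s h2 s' h3 hss hmem
  · rw [Finset.card_insert_of_notMem hgS]
    exact Nat.lt_succ_self _

/-- one full step -/
theorem full_step {k : ℕ} (hk : 2 ≤ k) (D : Sg k) (u v : F2) (a b : Fin k → F2) :
    ∃ D' : Sg k, D.R ≤ D'.R ∧ D.Lh ≤ D'.Lh ∧ D.S ⊆ D'.S ∧ D.S.card < D'.S.card ∧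
      (∃ W : F2, tau k W ≠ 1 ∧ sb u v W ∈ D'.R) ∧
      ((∀ i j, i ≠ j → (a i)⁻¹ * a j ∉ D'.Lh) → (∀ i j, i ≠ j → (b i)⁻¹ * b j ∉ D'.Lh) →
        ∃ g : F2, ∀ j, (b j)⁻¹ * g * a j ∈ D'.Lh) := by
  obtain ⟨D1, h1, h2, h3, W, h4, h5⟩ := pair_step hk D u v
  obtain ⟨D2, g1, g2, g3, g4⟩ := tuple_step hk D1 a b
  obtain ⟨D3, f1, f2, f3, f4⟩ := grow_step D2
  refine ⟨D3, ?_, ?_, ?_, ?_, ⟨W, h4, ?_⟩, ?_⟩
  · rw [f1]
    exact h1.trans g1
  · rw [f2]
    exact h2.trans g2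
  · rw [← h3, ← g3]
    exact f3
  · rw [← h3, ← g3]
    exact f4
  · rw [f1]
    exact g1 h5
  · intro q1 q2
    rw [f2] at q1 q2 ⊢
    exact g4 (fun i j hij hm => q1 i j hij (g2 hm)) (fun i j hij hm => q2 i j hij (g2 hm))

/-- the first stage -/
theorem base (k : ℕ) : Nonempty (Sg k) := by
  classical
  obtain ⟨E0, hE0, hbase⟩ := rd_hyp FreeBase.freeHyp
  refine ⟨{ R := ⊥, Lh := ⊥, S := ∅, st := ⟨F2, inferInstance, MonoidHom.id _, FreeBase.freeHyp, ⊥,
    Function.surjective_id, fun g => Iff.rfl, fun g => Iff.rfl, ?_⟩, dis := ?_ }⟩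
  · refine ⟨⟨E0, ∅, hE0, ⟨hbase, ?_, ?_⟩, ?_, ?_⟩, ⟨0, ?_⟩, ?_, ?_, ?_⟩
    · intro a ha ha'
      exact absurd (FreeBase.free_torsion_free a ha') ha
    · intro a g ha ha'
      exact absurd (FreeBase.free_torsion_free a ha') ha
    · intro p hp
      exact absurd hp (Finset.notMem_empty p)
    · intro p hp
      exact absurd hp (Finset.notMem_empty p)
    · intro a ha b hb p hp
      have ha' : a = 1 := Subgroup.mem_bot.1 ha
      have hb' : b = 1 := Subgroup.mem_bot.1 hb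
      subst ha' hb'
      rw [FreeBase.freeHyp.d_self] at hp
      refine ⟨1, Subgroup.one_mem _, ?_⟩
      omega
    · intro g hg h hmem
      exfalso
      apply hg
      have h5 := Subgroup.mem_bot.1 (hmem 0)
      have h6 : g = 1 := by
        have : g = h 0 * ((h 0)⁻¹ * g * h 0) * (h 0)⁻¹ := by group
        rw [this, h5]
        group
      rw [h6]
      exact IsOfFinOrder.one
    · refine ⟨FreeGroup.of 0, FreeGroup.of 1, ?_⟩
      intro h5
      apply c0_ne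
      unfold c0
      rw [h5]
      group
    · have : Infinite F2 := by
        refine Infinite.of_injective (fun n : ℕ => (FreeGroup.of (0 : Fin 2)) ^ n) ?_
        intro m n hmn
        have h5 : (FreeGroup.of (0 : Fin 2)) ^ m = (FreeGroup.of (0 : Fin 2)) ^ n := hmn
        have h6 := congrArg FreeGroup.norm h5
        simpa using h6
      refine ⟨fun i => Infinite.natEmbedding F2 i, ?_⟩
      intro i j hij hmem
      have h5 := Subgroup.mem_bot.1 hmem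
      rw [inv_mul_eq_one] at h5
      exact hij (Fin.ext ((Infinite.natEmbedding F2).injective h5))
  · intro s hs
    exact absurd hs (Finset.notMem_empty s)

/-- **the limit** -/
theorem limit {k : ℕ} (hk : 2 ≤ k) : ∃ (R Lh : Subgroup F2) (_ : R.Normal), R ≤ Lh ∧
    Infinite (F2 ⧸ Lh) ∧
    (∀ u v : F2, ∃ W : F2, tau k W ≠ 1 ∧ sb u v W ∈ R) ∧
    (∀ a b : Fin k → F2, (∀ i j, i ≠ j → (a i)⁻¹ * a j ∉ Lh) →
      (∀ i j, i ≠ j → (b i)⁻¹ * b j ∉ Lh) → ∃ g : F2, ∀ j, (b j)⁻¹ * g * a j ∈ Lh) := by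
  classical
  have : Countable F2 := inferInstance
  obtain ⟨en, hen⟩ := exists_surjective_nat (F2 × F2 × (Fin k → F2) × (Fin k → F2))
  obtain ⟨D0⟩ := base k
  have hstep := fun (j : ℕ) (D : Sg k) =>
    full_step hk D (en j).1 (en j).2.1 (en j).2.2.1 (en j).2.2.2
  choose nx n1 n2 n3 n4 n5 n6 using hstep
  let sq : ℕ → Sg k := fun j => Nat.rec D0 (fun j D => nx j D) j
  have hsucc : ∀ j, sq (j + 1) = nx j (sq j) := fun j => rfl
  have hmono : Monotone (fun j => (sq j).R) := by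
    apply monotone_nat_of_le_succ
    intro j
    rw [hsucc]
    exact n1 j _
  have hmonoL : Monotone (fun j => (sq j).Lh) := by
    apply monotone_nat_of_le_succ
    intro j
    rw [hsucc]
    exact n2 j _
  have hmonoS : Monotone (fun j => (sq j).S) := by
    apply monotone_nat_of_le_succ
    intro j
    rw [hsucc]
    exact n3 j _
  have hcard : ∀ j, j ≤ (sq j).S.card := by
    intro j
    induction j with
    | zero => exact Nat.zero_le _
    | succ j ih =>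
      have := n4 j (sq j)
      rw [hsucc]
      omega
  set R : Subgroup F2 := ⨆ j, (sq j).R with hR
  set Lh : Subgroup F2 := ⨆ j, (sq j).Lh with hLh
  have hmem : ∀ g, g ∈ R ↔ ∃ j, g ∈ (sq j).R := by
    intro g
    exact Subgroup.mem_iSup_of_directed hmono.directed_le
  have hmemL : ∀ g, g ∈ Lh ↔ ∃ j, g ∈ (sq j).Lh := by
    intro g
    exact Subgroup.mem_iSup_of_directed hmonoL.directed_le
  have hRL : ∀ j, (sq j).R ≤ (sq j).Lh := by
    intro j g hg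
    obtain ⟨Q, _, ψ, H, L, hψ, hker, hLh, hLv⟩ := (sq j).st
    rw [← hLh, (hker g).2 hg]
    exact L.one_mem
  have hSout : ∀ j, ∀ s ∈ (sq j).S, ∀ s' ∈ (sq j).S, s ≠ s' → s⁻¹ * s' ∉ Lh := by
    intro j s hs s' hs' hss hmem2
    obtain ⟨i, hi⟩ := (hmemL _).1 hmem2
    exact (sq (max i j)).dis s (hmonoS (le_max_right i j) hs) s' (hmonoS (le_max_right i j) hs')
      hss (hmonoL (le_max_left i j) hi)
  have hnormj : ∀ j, ((sq j).R).Normal := by
    intro j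
    obtain ⟨Q, _, ψ, H, L, -, hker, -⟩ := (sq j).st
    have : (sq j).R = ψ.ker := by
      ext g
      rw [MonoidHom.mem_ker, hker]
    rw [this]
    infer_instance
  have hnorm : R.Normal := by
    constructor
    intro n hn g
    rw [hmem] at hn ⊢
    obtain ⟨j, hj⟩ := hn
    exact ⟨j, (hnormj j).conj_mem n hj g⟩
  refine ⟨R, Lh, hnorm, ?_, ?_, ?_, ?_⟩
  · intro g hg
    obtain ⟨j, hj⟩ := (hmem g).1 hg
    exact (hmemL g).2 ⟨j, hRL j hj⟩
  · by_contra hfin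
    rw [not_infinite_iff_finite] at hfin
    have := Fintype.ofFinite (F2 ⧸ Lh)
    obtain ⟨m, hm⟩ : ∃ m, m = Fintype.card (F2 ⧸ Lh) := ⟨_, rfl⟩
    have h5 := hcard (m + 1)
    have h6 : ((sq (m + 1)).S.image (fun g : F2 => (g : F2 ⧸ Lh))).card =
        (sq (m + 1)).S.card := by
      apply Finset.card_image_of_injOn
      intro s hs s' hs' hss
      by_contra hne
      refine hSout (m + 1) s hs s' hs' hne ?_
      rw [← QuotientGroup.eq]
      exact hss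
    have h7 := Finset.card_le_univ ((sq (m + 1)).S.image (fun g : F2 => (g : F2 ⧸ Lh)))
    omega
  · intro u v
    obtain ⟨j, hj⟩ := hen (u, v, fun _ => 1, fun _ => 1)
    obtain ⟨W, hW1, hW2⟩ := n5 j (sq j)
    refine ⟨W, hW1, (hmem _).2 ⟨j + 1, ?_⟩⟩
    rw [hj] at hW2
    rw [hsucc]
    exact hW2
  · intro a b haa hbb
    obtain ⟨j, hj⟩ := hen (1, 1, a, b)
    have h5 := n6 j (sq j)
    rw [hj] at h5
    obtain ⟨g, hg⟩ := h5 (fun i i' hii hm => haa i i' hii ((hmemL _).2 ⟨j + 1, by rw [hsucc]; exact hm⟩))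
      (fun i i' hii hm => hbb i i' hii ((hmemL _).2 ⟨j + 1, by rw [hsucc]; exact hm⟩))
    exact ⟨g, fun i => (hmemL _).2 ⟨j + 1, by rw [hsucc]; exact hg i⟩⟩

end Pool.Agent.TH714.TD
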