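import Pool.Agent.TH714.TD.Defs

/-!
# Chains of lines (helper714)
-/

set_option autoImplicit false

namespace Pool.Agent.TH714.TD

open Pool.Agent.TH64

section chain

variable {G : Type*} [Group G] {H : Hyp G} {x : G} {A : Ax H x} {n B : ℤ} {e f : ℕ → G} {R : ℕ}
  {p q : G}

theorem th_eq (A : Ax H x) : (A.th : ℤ) = A.c * A.c + 3 * A.c + 1 := by
  unfold PAx.th; push_cast; ring

theorem th_pos (A : Ax H x) : (A.c : ℤ) < A.th := by
  rw [th_eq]
  have : (0 : ℤ) ≤ (A.c : ℤ) * A.c := by positivity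
  have : (0 : ℤ) ≤ (A.c : ℤ) := by positivity
  omega

theorem abs_s_symm (A : Ax H x) (u p q : G) : |A.s u q p| = |A.s u p q| := by
  rw [A.s_symm, abs_neg]

theorem abs_tri (A : Ax H x) (u p q w : G) : |A.s u p w| ≤ |A.s u p q| + |A.s u q w| := by
  rw [← A.s_add u p q w]
  exact abs_add_le _ _

theorem Chn.B0 (h : Chn A n B e f R p q) : 0 ≤ B := (abs_nonneg _).trans (h.start 1)

theorem Chn.fi (h : Chn A n B e f R p q) {i : ℕ} (hi : i < R) : ∃ j : ℤ, f i = e i * x ^ j := by
  obtain ⟨j, hj⟩ := h.line i hi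
  have hj' : x ^ j = (e i)⁻¹ * f i := hj
  exact ⟨j, by rw [hj']; group⟩

/-- a chain from `f (i - 1)` on -/
theorem Chn.tail (h : Chn A n B e f R p q) {i : ℕ} (hi : i + 1 < R) :
    Chn A n B (fun t => e (i + 1 + t)) (fun t => f (i + 1 + t)) (R - (i + 1)) (f i) q := by
  refine ⟨by omega, fun t ht => h.line _ (by omega), fun t ht => h.long _ (by omega), ?_, ?_, ?_, ?_⟩
  · intro t ht
    exact h.ne (i + 1 + t) (by omega)
  · intro t ht u
    exact h.gap (i + 1 + t) (by omega) u
  · intro u
    exact h.gap i hi u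
  · intro u
    have := h.last u
    rw [show i + 1 + (R - (i + 1) - 1) = R - 1 by omega]
    exact this

/-- an initial part of a chain -/
theorem Chn.head (h : Chn A n B e f R p q) {j : ℕ} (hj : j < R) (hj0 : 0 < j) :
    Chn A n B e f j p (e j) := by
  refine ⟨hj0, fun t ht => h.line _ (by omega), fun t ht => h.long _ (by omega), ?_, ?_,
    h.start, ?_⟩
  · intro t ht
    exact h.ne t (by omega)
  · intro t ht u
    exact h.gap t (by omega) u
  · intro u
    have := h.gap (j - 1) (by omega) u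
    rwa [show j - 1 + 1 = j by omega] at this

theorem not_mem_symm {a b : G} (h : a⁻¹ * b ∉ Subgroup.zpowers x) :
    b⁻¹ * a ∉ Subgroup.zpowers x := by
  intro h2
  apply h
  have := (Subgroup.zpowers x).inv_mem h2
  rwa [mul_inv_rev, inv_inv] at this

theorem Chn.right_aux (hn : 2 * B + 4 * A.th + 4 * A.c < n) : ∀ (m : ℕ) (e f : ℕ → G) (p q : G),
    Chn A n B e f (m + 1) p q → |A.s (e 0) (f 0) q| ≤ B + A.th := by
  intro m
  induction m with
  | zero =>
    intro e f p q h
    have h1 := h.last (e 0)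
    have h2 := th_pos A
    simp only [zero_add, Nat.sub_self] at h1
    omega
  | succ m ih =>
    intro e f p q h
    have h1 := ih _ _ _ _ (h.tail (i := 0) (by omega))
    simp only [zero_add, add_zero] at h1
    have hl := h.long 1 (by omega)
    have hg := h.gap 0 (by omega)
    rw [zero_add] at hg
    have hth := th_pos A
    rcases A.beh (h.ne 0 (by omega)) q with h3 | h3
    · rw [zero_add] at h3
      have h4 := h3 0
      rw [zpow_zero, mul_one, abs_s_symm] at h4
      have h5 := abs_tri A (e 0) (f 0) (e 1) q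
      have h6 := hg (e 0)
      omega
    · exfalso
      obtain ⟨j, hj⟩ := h.fi (i := 0) (by omega)
      rw [zero_add] at h3
      have h4 := h3 j
      rw [← hj, abs_s_symm] at h4
      have h5 := abs_tri A (e 1) (e 1) (f 0) (f 1)
      have h6 := abs_tri A (e 1) (f 0) q (f 1)
      have h7 := hg (e 1)
      rw [abs_s_symm] at h7
      rw [abs_s_symm] at h1
      omega

/-- TD1a -/
theorem Chn.right (h : Chn A n B e f R p q) (hn : 2 * B + 4 * A.th + 4 * A.c < n) :
    ∀ i < R, |A.s (e i) (f i) q| ≤ B + A.th := by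
  intro i hi
  rcases Nat.eq_zero_or_pos i with rfl | hi0
  · exact Chn.right_aux hn (R - 1) e f p q (by rwa [show R - 1 + 1 = R by omega])
  · have h1 := h.tail (i := i - 1) (by omega)
    rw [show i - 1 + 1 = i by omega] at h1
    have := Chn.right_aux hn (R - i - 1) _ _ _ _ (by rwa [show R - i - 1 + 1 = R - i by omega])
    simpa using this

theorem Chn.left_aux (hn : 2 * B + 4 * A.th + 4 * A.c < n) : ∀ (m : ℕ) (e f : ℕ → G) (p q : G),
    Chn A n B e f (m + 1) p q → |A.s (e m) p (e m)| ≤ B + A.th := by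
  intro m
  induction m with
  | zero =>
    intro e f p q h
    have h1 := h.start (e 0)
    have h2 := th_pos A
    omega
  | succ m ih =>
    intro e f p q h
    have h1 := ih _ _ _ _ (h.head (j := m + 1) (by omega) (by omega))
    have hl := h.long m (by omega)
    have hg := h.gap m (by omega)
    have hth := th_pos A
    rcases A.beh (h.ne m (by omega)) p with h3 | h3
    · exfalso
      have h4 := h3 0
      rw [zpow_zero, mul_one] at h4
      have h5 := abs_tri A (e m) (e m) p (f m)
      have h6 := abs_tri A (e m) p (e (m + 1)) (f m)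
      have h7 := hg (e m)
      rw [abs_s_symm] at h7 h1
      omega
    · obtain ⟨j, hj⟩ := h.fi (i := m) (by omega)
      have h4 := h3 j
      rw [← hj] at h4
      have h5 := abs_tri A (e (m + 1)) p (f m) (e (m + 1))
      have h6 := hg (e (m + 1))
      omega

/-- TD1b -/
theorem Chn.left (h : Chn A n B e f R p q) (hn : 2 * B + 4 * A.th + 4 * A.c < n) :
    ∀ i < R, |A.s (e i) p (e i)| ≤ B + A.th := by
  intro i hi
  rcases lt_or_eq_of_le (show i + 1 ≤ R by omega) with h1 | h1
  · exact Chn.left_aux hn i e f p (e (i + 1)) (h.head h1 (by omega))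
  · exact Chn.left_aux hn i e f p q (by rwa [h1])

/-- TD1c -/
theorem Chn.val (h : Chn A n B e f R p q) (hn : 2 * B + 4 * A.th + 4 * A.c < n) :
    ∀ i < R, |A.s (e i) p q - A.s (e i) (e i) (f i)| ≤ 2 * (B + A.th) := by
  intro i hi
  have h1 := h.left hn i hi
  have h2 := h.right hn i hi
  have h3 := A.s_add (e i) p (e i) q
  have h4 := A.s_add (e i) (e i) (f i) q
  rw [← h3, ← h4]
  have h5 := abs_add_le (A.s (e i) p (e i)) (A.s (e i) (f i) q)
  rw [show A.s (e i) p (e i) + (A.s (e i) (e i) (f i) + A.s (e i) (f i) q) -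
    A.s (e i) (e i) (f i) = A.s (e i) p (e i) + A.s (e i) (f i) q by ring]
  omega

theorem Chn.val_ge (h : Chn A n B e f R p q) (hn : 2 * B + 4 * A.th + 4 * A.c < n) :
    ∀ i < R, n - 2 * (B + A.th) ≤ |A.s (e i) p q| := by
  intro i hi
  have h1 := h.val hn i hi
  have h2 := h.long i hi
  have h3 := abs_sub_abs_le_abs_sub (A.s (e i) (e i) (f i)) (A.s (e i) p q)
  rw [abs_sub_comm] at h3
  omega

theorem Chn.out_aux (hn : 2 * B + 4 * A.th + 4 * A.c < n) : ∀ (m : ℕ) (e f : ℕ → G) (p q : G),
    Chn A n B e f (m + 1) p q → ∀ W : G, (∀ i < m + 1, (e i)⁻¹ * W ∉ Subgroup.zpowers x) →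
    |A.s W p q| ≤ 2 * A.th + B + A.c := by
  intro m
  induction m with
  | zero =>
    intro e f p q h W hW
    have hv := h.val_ge hn 0 (by omega)
    have h1 := A.beh (not_mem_symm (hW 0 (by omega))) p
    have h2 := A.beh (not_mem_symm (hW 0 (by omega))) q
    have h3 := h.start W
    have h4 := h.last W
    simp only [zero_add, Nat.sub_self] at h4
    have hth := th_pos A
    rcases h1 with h1 | h1
    · obtain ⟨j, hj⟩ := h.fi (i := 0) (by omega)
      have h5 := h1 j
      rw [← hj] at h5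
      have h6 := abs_tri A W p (f 0) q
      omega
    · rcases h2 with h2 | h2
      · have h5 := h2 0
        rw [zpow_zero, mul_one, abs_s_symm] at h5
        have h6 := abs_tri A W p (e 0) q
        omega
      · exfalso
        have h5 := h1 0
        have h6 := h2 0
        rw [abs_s_symm] at h6
        have h7 := abs_tri A (e 0) p (W * x ^ (0 : ℤ)) q
        have := h.B0
        omega
  | succ m ih =>
    intro e f p q h W hW
    have hv := h.val_ge hn 0 (by omega)
    have h1 := A.beh (not_mem_symm (hW 0 (by omega))) p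
    have h2 := A.beh (not_mem_symm (hW 0 (by omega))) q
    have h3 := h.start W
    have hth := th_pos A
    rcases h2 with h2 | h2
    · -- the first line is near `q`
      have h5 := h2 0
      rw [zpow_zero, mul_one, abs_s_symm] at h5
      have h6 := abs_tri A W p (e 0) q
      omega
    rcases h1 with h1 | h1
    swap
    · exfalso
      have h5 := h1 0
      have h6 := h2 0
      rw [abs_s_symm] at h6
      have h7 := abs_tri A (e 0) p (W * x ^ (0 : ℤ)) q
      have := h.B0
      omega
    -- the last line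
    obtain ⟨j0, hj0⟩ := h.fi (i := 0) (by omega)
    -- go to the tail, starting at `f 0`
    -- find the first line near `q`
    by_cases hall : ∀ i < m + 1 + 1, ∀ j : ℤ, |A.s W p (e i * x ^ j)| ≤ A.th
    · obtain ⟨j, hj⟩ := h.fi (i := m + 1) (by omega)
      have h5 := hall (m + 1) (by omega) j
      rw [← hj] at h5
      have h6 := abs_tri A W p (f (m + 1)) q
      have h7 := h.last W
      rw [show m + 1 + 1 - 1 = m + 1 by omega] at h7
      omega
    · classical
      push Not at hall
      obtain ⟨i, ⟨hi, j, hj⟩, hmin⟩ : ∃ i, (i < m + 1 + 1 ∧ ∃ j : ℤ, A.th < |A.s W p (e i * x ^ j)|) ∧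
          ∀ i' < i, ∀ j : ℤ, |A.s W p (e i' * x ^ j)| ≤ A.th := by
        refine ⟨Nat.find hall, Nat.find_spec hall, ?_⟩
        intro i' hi'
        have h8 := Nat.find_min hall hi'
        push Not at h8
        exact h8 (hi'.trans (Nat.find_spec hall).1)
      rcases A.beh (not_mem_symm (hW i hi)) p with h5 | h5
      · have := h5 j
        omega
      rcases A.beh (not_mem_symm (hW i hi)) q with h6 | h6
      swap
      · exfalso
        have h8 := h5 0
        have h9 := h6 0
        rw [abs_s_symm] at h9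
        have h7 := abs_tri A (e i) p (W * x ^ (0 : ℤ)) q
        have h10 := h.val_ge hn i hi
        have := h.B0
        omega
      have h7 := h6 0
      rw [zpow_zero, mul_one, abs_s_symm] at h7
      rcases Nat.eq_zero_or_pos i with rfl | hi0
      · have h8 := abs_tri A W p (e 0) q
        omega
      · obtain ⟨j', hj'⟩ := h.fi (i := i - 1) (by omega)
        have h8 := hmin (i - 1) (by omega) j'
        rw [← hj'] at h8
        have h9 := h.gap (i - 1) (by omega) W
        rw [show i - 1 + 1 = i by omega] at h9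
        have h10 := abs_tri A W p (f (i - 1)) q
        have h11 := abs_tri A W (f (i - 1)) (e i) q
        omega

/-- TD1d -/
theorem Chn.out (h : Chn A n B e f R p q) (hn : 2 * B + 4 * A.th + 4 * A.c < n) (W : G)
    (hW : ∀ i < R, (e i)⁻¹ * W ∉ Subgroup.zpowers x) : |A.s W p q| ≤ 2 * A.th + B + A.c := by
  have := h.pos
  exact Chn.out_aux hn (R - 1) e f p q (by rwa [show R - 1 + 1 = R by omega]) W
    (by rwa [show R - 1 + 1 = R by omega])

/-- a part in the middle of a chain -/
theorem Chn.mid (h : Chn A n B e f R p q) {i j : ℕ} (hij : i + 1 < j) (hj : j < R) :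
    Chn A n B (fun t => e (i + 1 + t)) (fun t => f (i + 1 + t)) (j - (i + 1)) (f i) (e j) := by
  have h1 := (h.tail (i := i) (by omega)).head (j := j - (i + 1)) (by omega) (by omega)
  simp only [show i + 1 + (j - (i + 1)) = j by omega] at h1
  exact h1

/-- TD1e -/
theorem Chn.inj (h : Chn A n B e f R p q) (hn : 2 * B + 4 * A.th + 4 * A.c < n) :
    ∀ i j, i < j → j < R → (e i)⁻¹ * e j ∉ Subgroup.zpowers x := by
  intro i
  -- induction on the distance
  have key : ∀ d : ℕ, ∀ i j, j = i + 1 + d → j < R → (e i)⁻¹ * e j ∉ Subgroup.zpowers x := by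
    intro d
    induction d using Nat.strong_induction_on with
    | _ d ih =>
      intro i j hd hj hmem
      rcases Nat.eq_zero_or_pos d with rfl | hd0
      · rw [add_zero] at hd
        rw [hd] at hmem
        exact h.ne i (by omega) hmem
      · have h1 := h.mid (i := i) (j := j) (by omega) hj
        have h2 := h1.val_ge hn 0 (by omega)
        simp only [add_zero] at h2
        obtain ⟨s, hs⟩ := hmem
        have hs' : x ^ s = (e i)⁻¹ * e j := hs
        obtain ⟨t, ht⟩ := h.fi (i := i) (by omega)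
        have hej : e j = e i * x ^ s := by rw [hs']; group
        have h3 := A.ov_s (u := e (i + 1)) (w := e i) (not_mem_symm (h.ne i (by omega))) t s
        rw [← ht, ← hej] at h3
        have hth := th_pos A
        have := h.B0
        omega
  intro j hij hj
  exact key (j - (i + 1)) i j (by omega) hj

theorem Chn.inj' (h : Chn A n B e f R p q) (hn : 2 * B + 4 * A.th + 4 * A.c < n) :
    ∀ i j, i ≠ j → i < R → j < R → (e i)⁻¹ * e j ∉ Subgroup.zpowers x := by
  intro i j hij hi hj
  rcases lt_or_gt_of_ne hij with h1 | h1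
  · exact h.inj hn i j h1 hj
  · exact not_mem_symm (h.inj hn j i h1 hi)

/-- TD1f -/
theorem Chn.btw (h : Chn A n B e f R p q) (hn : 2 * B + 4 * A.th + 4 * A.c < n) :
    ∀ i l j, i < l → l < j → j < R → ∀ a b : ℤ,
      n - 2 * (B + A.th) - 2 * A.c ≤ |A.s (e l) (e i * x ^ a) (e j * x ^ b)| := by
  intro i l j hil hlj hj a b
  have h1 := (h.mid (i := i) (j := j) (by omega) hj).val_ge hn (l - (i + 1)) (by omega)
  simp only [show i + 1 + (l - (i + 1)) = l by omega] at h1
  obtain ⟨t, ht⟩ := h.fi (i := i) (by omega)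
  have h2 := A.ov_s (u := e l) (w := e i) (h.inj' hn l i (by omega) (by omega) (by omega)) t a
  rw [← ht] at h2
  have h3 := A.ov_s (u := e l) (w := e j) (h.inj' hn l j (by omega) (by omega) (by omega)) b 0
  rw [zpow_zero, mul_one] at h3
  have h4 := abs_tri A (e l) (f i) (e i * x ^ a) (e j)
  have h5 := abs_tri A (e l) (e i * x ^ a) (e j * x ^ b) (e j)
  omega

end chain

/-- TD2 -/
theorem far_count {G : Type*} [Group G] {H : Hyp G} {x : G} (A : Ax H x) (h h' : G) :
    ∃ K : ℕ, ∀ (I : Finset ℕ) (e : ℕ → G),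
      (∀ i ∈ I, ∀ j ∈ I, i ≠ j → (e i)⁻¹ * e j ∉ Subgroup.zpowers x) →
      (∀ i ∈ I, (A.c : ℤ) < |A.s (e i) h h'|) → I.card ≤ K := by
  classical
  refine ⟨(H.fin (H.d h h' + A.c)).toFinset.card, ?_⟩
  intro I e he hc
  refine Finset.card_le_card_of_injOn (fun i => h⁻¹ * A.pr (e i) h) ?_ ?_
  · intro i hi
    rw [Set.Finite.coe_toFinset]
    have h1 := A.proj_pr (e i) h h' (hc i hi)
    have h2 : H.d h (A.pr (e i) h) = H.len (h⁻¹ * A.pr (e i) h) := rfl
    show H.len (h⁻¹ * A.pr (e i) h) ≤ _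
    omega
  · intro i hi j hj hij
    by_contra hne
    apply he i hi j hj hne
    have h1 : A.pr (e i) h = A.pr (e j) h := mul_left_cancel hij
    have h2 := A.pr_mem (e i) h
    have h3 := A.pr_mem (e j) h
    have h4 := (Subgroup.zpowers x).mul_mem h2 ((Subgroup.zpowers x).inv_mem h3)
    rw [h1, mul_inv_rev, inv_inv] at h4
    have h5 : (e i)⁻¹ * A.pr (e j) h * ((A.pr (e j) h)⁻¹ * e j) = (e i)⁻¹ * e j := by group
    rwa [h5] at h4

/-- TD3 -/
theorem pigL {G : Type*} [Group G] {H : Hyp G} {x : G} (P : PAx H x) (L : Subgroup G) (k0 : ℕ)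
    (hL : H.QC (L : Set G) k0) : PigL P L := by
  classical
  obtain ⟨ρ, hρ⟩ : ∃ ρ : ℕ, ρ = 2 * P.c + H.D + k0 := ⟨_, rfl⟩
  set B := (H.fin ρ).toFinset with hB
  refine ⟨B.card + P.c + 1, fun u l hl l' hl' hk => ?_⟩
  push_cast at hk
  set a := P.κ (u⁻¹ * l) with ha
  set b := P.κ (u⁻¹ * l') with hb
  have hs : P.s u l l' = b - a := rfl
  rw [hs] at hk
  obtain ⟨ε, hε, hεab⟩ : ∃ ε : ℤ, (ε = 1 ∨ ε = -1) ∧ ε * (b - a) = |b - a| := by
    rcases le_total 0 (b - a) with h | h
    · exact ⟨1, Or.inl rfl, by rw [abs_of_nonneg h]; ring⟩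
    · exact ⟨-1, Or.inr rfl, by rw [abs_of_nonpos h]; ring⟩
  -- every point of the line in between is near a point of `L`
  have hnear : ∀ i : ℕ, ∃ q : G, i ≤ B.card →
      q ∈ L ∧ H.len ((u * x ^ (a + ε * i))⁻¹ * q) ≤ ρ := by
    intro i
    by_cases hi : i ≤ B.card
    swap
    · exact ⟨1, fun h => absurd h hi⟩
    have h1 := P.line_between u l l' (by rw [hs]; omega) (a + ε * i) (by
      rw [P.s_line, ← ha, hs]
      have e1 : P.s u (u * x ^ (a + ε * (i : ℤ))) l' = b - (a + ε * i) := by
        unfold PAx.s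
        rw [inv_mul_cancel_left, P.κ_zpow]
      rw [e1]
      rcases hε with rfl | rfl
      · rw [show a + 1 * (i : ℤ) - a = i by ring, abs_of_nonneg (by omega : (0:ℤ) ≤ i),
          abs_of_nonneg (by omega : (0:ℤ) ≤ b - (a + 1 * i))]
        omega
      · rw [show a + -1 * (i : ℤ) - a = - i by ring, abs_neg, abs_of_nonneg (by omega : (0:ℤ) ≤ i),
          abs_of_nonpos (by omega : b - (a + -1 * i) ≤ 0)]
        omega)
    obtain ⟨w, hw, hwd⟩ := Close.near_pt H h1
    obtain ⟨q, hq, hqd⟩ := hL l hl l' hl' w hw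
    refine ⟨q, fun _ => ⟨hq, ?_⟩⟩
    have h2 := H.d_tri (u * x ^ (a + ε * (i : ℤ))) w q
    have h3 : H.d (u * x ^ (a + ε * (i : ℤ))) q = H.len ((u * x ^ (a + ε * (i : ℤ)))⁻¹ * q) := rfl
    rw [H.d_comm (u * x ^ (a + ε * (i : ℤ))) w] at h2
    omega
  choose j hj using hnear
  obtain ⟨i, hi, i', hi', hne, heq⟩ := Finset.exists_ne_map_eq_of_card_lt_of_maps_to
    (s := Finset.range (B.card + 1)) (t := B)
    (f := fun i : ℕ => (u * x ^ (a + ε * (i : ℤ)))⁻¹ * j i)
    (by rw [Finset.card_range]; omega) (by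
      intro i hi
      have hi2 := Finset.mem_range.1 (Finset.mem_coe.1 hi)
      rw [hB, Set.Finite.coe_toFinset]
      exact (hj i (by omega)).2)
  have hi2 := Finset.mem_range.1 hi
  have hi2' := Finset.mem_range.1 hi'
  refine ⟨ε * ((i : ℤ) - i'), ?_, ?_⟩
  · intro h0
    rcases hε with rfl | rfl
    · omega
    · omega
  · have h1 : (u * x ^ (a + ε * (i : ℤ)))⁻¹ * j i = (u * x ^ (a + ε * (i' : ℤ)))⁻¹ * j i' := heq
    have h2 : j i * (j i')⁻¹ = u * x ^ (ε * ((i : ℤ) - i')) * u⁻¹ := by
      have h3 : j i = (u * x ^ (a + ε * (i : ℤ))) * ((u * x ^ (a + ε * (i' : ℤ)))⁻¹ * j i') := by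
        rw [← h1]; group
      rw [h3]
      have h4 : ε * ((i : ℤ) - i') = (a + ε * i) + -(a + ε * i') := by ring
      rw [h4, zpow_add x (a + ε * (i : ℤ)), zpow_neg]
      group
    rw [← h2]
    exact L.mul_mem (hj i (by omega)).1 (L.inv_mem (hj i' (by omega)).1)

/-- reduced words give chains of lines -/
def WdChain {G : Type*} [Group G] {H : Hyp G} {x : G} (A : Ax H x) {k : ℕ} (L : Subgroup G)
    (c : G) (a b : Fin k → G) : Prop :=
  ∃ B : ℤ, 0 ≤ B ∧ ∀ n : ℕ, ∀ (R : ℕ) (P : ℕ → G) (w : ℕ → Bool × Fin k)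
    (l : ℕ → G), 0 < R → Wd L x c n a b R P w l → ∀ p q : G, p⁻¹ * P 0 ∈ L →
    (P R)⁻¹ * q ∈ L →
    Chn A n B (we x c n a b P w) (wf x c n a b P w) (3 * R) p q

/-- all elements of the extended subgroup are given by reduced words -/
def ExWd {G : Type*} [Group G] (x : G) {k : ℕ} (L : Subgroup G) (c : G) (a b : Fin k → G) : Prop :=
  ∀ (n : ℕ) (g : G), g ∈ Lx L x c n a b →
    ∃ (R : ℕ) (P : ℕ → G) (w : ℕ → Bool × Fin k) (l : ℕ → G),
      P 0 ∈ L ∧ Wd L x c n a b R P w l ∧ P R = g

end Pool.Agent.TH714.TD
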