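import Pool.Agent.TH64.Ost2

/-!
# Chains of lines and quasiconvex subgroups (helper714)

Definitions for the construction of groups of prescribed transitivity degree (`MP_3ae405_al`).
-/

set_option autoImplicit false

namespace Pool.Agent.TH714.TD

open Pool.Agent.TH64

/-- A chain of lines: on the way from `p` to `q` one passes successively the segments from `e i`
to `f i` of the lines `e i * ⟨x⟩`, `i < R`; consecutive lines are distinct and the pieces between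
the segments have projections at most `B` on all lines. -/
structure Chn {G : Type*} [Group G] {H : Hyp G} {x : G} (A : Ax H x) (n B : ℤ) (e f : ℕ → G)
    (R : ℕ) (p q : G) : Prop where
  pos : 0 < R
  line : ∀ i < R, (e i)⁻¹ * f i ∈ Subgroup.zpowers x
  long : ∀ i < R, n ≤ |A.s (e i) (e i) (f i)|
  ne : ∀ i, i + 1 < R → (e i)⁻¹ * e (i + 1) ∉ Subgroup.zpowers x
  gap : ∀ i, i + 1 < R → ∀ u, |A.s u (f i) (e (i + 1))| ≤ B
  start : ∀ u, |A.s u p (e 0)| ≤ B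
  last : ∀ u, |A.s u (f (R - 1)) q| ≤ B

/-- an element of infinite order fixes at most `k` cosets of `L` -/
def Few {G : Type*} [Group G] (L : Subgroup G) (k : ℕ) : Prop :=
  ∀ g : G, ¬ IsOfFinOrder g → ∀ h : Fin (k + 1) → G, (∀ i, (h i)⁻¹ * g * h i ∈ L) →
    ∃ i j, i ≠ j ∧ (h i)⁻¹ * h j ∈ L

/-- no power of a conjugate of `x` is in `L` unless the conjugate itself is in `L`: on `G / L` the
element `x` has only fixed points and infinite cycles -/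
def Fixes {G : Type*} [Group G] (L : Subgroup G) (x : G) : Prop :=
  ∀ u : G, (∃ t : ℤ, t ≠ 0 ∧ u * x ^ t * u⁻¹ ∈ L) → u * x * u⁻¹ ∈ L

/-- on `G / L` all the cycles of `x` are infinite -/
def Free {G : Type*} [Group G] (L : Subgroup G) (x : G) : Prop :=
  ∀ u : G, ∀ t : ℤ, t ≠ 0 → u * x ^ t * u⁻¹ ∉ L

/-- the segment: `x ^ n * c * x ^ (2 n) * c * x ^ (3 n)` -/
def tt {G : Type*} [Group G] (x c : G) (n : ℕ) : G :=
  x ^ n * c * x ^ (2 * n) * c * x ^ (3 * n)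

/-- the letter `b j⁻¹ * t * a j` or its inverse -/
def ss {G : Type*} [Group G] {k : ℕ} (x c : G) (n : ℕ) (a b : Fin k → G) (s : Bool × Fin k) : G :=
  if s.1 then (b s.2)⁻¹ * tt x c n * a s.2 else (a s.2)⁻¹ * (tt x c n)⁻¹ * b s.2

/-- the first point of a letter is `p⁻¹`, where `p` is -/
def pp {G : Type*} {k : ℕ} (a b : Fin k → G) (s : Bool × Fin k) : G :=
  if s.1 then b s.2 else a s.2

/-- the last point of a letter is -/
def qq {G : Type*} {k : ℕ} (a b : Fin k → G) (s : Bool × Fin k) : G :=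
  if s.1 then a s.2 else b s.2

/-- the extended subgroup -/
def Lx {G : Type*} [Group G] {k : ℕ} (L : Subgroup G) (x c : G) (n : ℕ) (a b : Fin k → G) :
    Subgroup G :=
  Subgroup.closure ((L : Set G) ∪ Set.range (fun j => (b j)⁻¹ * tt x c n * a j))

/-- the conditions on the tuples `a`, `b`: the `2 k` cosets `a j L`, `b j L` are distinct and no
power of `x` maps one to another -/
structure Sep {G : Type*} [Group G] {k : ℕ} (L : Subgroup G) (x : G) (a b : Fin k → G) : Prop where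
  free : Free L x
  aa : ∀ i j, ∀ t : ℤ, (a i)⁻¹ * x ^ t * a j ∈ L → t = 0 ∧ i = j
  bb : ∀ i j, ∀ t : ℤ, (b i)⁻¹ * x ^ t * b j ∈ L → t = 0 ∧ i = j
  ab : ∀ i j, ∀ t : ℤ, (a i)⁻¹ * x ^ t * b j ∉ L
  ba : ∀ i j, ∀ t : ℤ, (b i)⁻¹ * x ^ t * a j ∉ L

/-- the partial products along a word: `P 0` is the start, letter `w i`, then `l i ∈ L` -/
structure Wd {G : Type*} [Group G] {k : ℕ} (L : Subgroup G) (x c : G) (n : ℕ) (a b : Fin k → G)
    (R : ℕ) (P : ℕ → G) (w : ℕ → Bool × Fin k) (l : ℕ → G) : Prop where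
  mem : ∀ i < R, l i ∈ L
  step : ∀ i < R, P (i + 1) = P i * ss x c n a b (w i) * l i
  red : ∀ i, i + 1 < R → ¬ (l i = 1 ∧ (w (i + 1)).2 = (w i).2 ∧ (w (i + 1)).1 ≠ (w i).1)

/-- offsets of the entries of the three lines of a letter -/
def so {G : Type*} [Group G] (x c : G) (n : ℕ) (s : Bool) (r : ℕ) : G :=
  if s then (if r = 0 then 1 else if r = 1 then x ^ n * c else x ^ n * c * x ^ (2 * n) * c)
  else (if r = 0 then 1 else if r = 1 then (x ^ (3 * n))⁻¹ * c⁻¹ else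
    (x ^ (3 * n))⁻¹ * c⁻¹ * (x ^ (2 * n))⁻¹ * c⁻¹)

/-- the signed lengths of the three segments of a letter -/
def sl (n : ℕ) (s : Bool) (r : ℕ) : ℤ :=
  if s then (if r = 0 then n else if r = 1 then 2 * n else 3 * n)
  else (if r = 0 then - (3 * n) else if r = 1 then - (2 * n) else - n)

/-- entries of the lines of a word -/
def we {G : Type*} [Group G] {k : ℕ} (x c : G) (n : ℕ) (a b : Fin k → G) (P : ℕ → G)
    (w : ℕ → Bool × Fin k) (i : ℕ) : G :=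
  P (i / 3) * (pp a b (w (i / 3)))⁻¹ * so x c n (w (i / 3)).1 (i % 3)

/-- exits of the lines of a word -/
def wf {G : Type*} [Group G] {k : ℕ} (x c : G) (n : ℕ) (a b : Fin k → G) (P : ℕ → G)
    (w : ℕ → Bool × Fin k) (i : ℕ) : G :=
  we x c n a b P w i * x ^ sl n (w (i / 3)).1 (i % 3)

/-- the base of the segment of a letter -/
def bs {G : Type*} [Group G] {k : ℕ} (x c : G) (n : ℕ) (a b : Fin k → G) (P : G)
    (s : Bool × Fin k) : G :=
  if s.1 then P * (b s.2)⁻¹ else P * (a s.2)⁻¹ * (tt x c n)⁻¹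

section props

variable {G : Type*} [Group G] {H : Hyp G} {x : G}

/-- if the projections of two elements of `L` to the line `u⟨x⟩` are far from each other, then a
power of `u x u⁻¹` is in `L` -/
def PigL (P : PAx H x) (L : Subgroup G) : Prop :=
  ∃ θ : ℕ, ∀ u : G, ∀ l ∈ L, ∀ l' ∈ L, (θ : ℤ) < |P.s u l l'| →
    ∃ t : ℤ, t ≠ 0 ∧ u * x ^ t * u⁻¹ ∈ L

/-- elements of `L M` all whose projections are at most `3 N / 4 + C` are in `L` -/
def Clos (A : Ax H x) (L : Subgroup G) : Prop :=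
  ∀ C : ℕ, ∃ N0 : ℕ, ∀ N ≥ N0, ∀ M : Subgroup G, Fill A N M → ∀ p : G,
    (∀ u : G, 4 * |A.s u 1 p| ≤ 3 * N + C) → (∃ l ∈ L, l⁻¹ * p ∈ M) → p ∈ L

/-- the powers of a long element which is minimal modulo `M` have projections at most `N / 2` -/
def GoodZ (A : Ax H x) : Prop :=
  ∃ C N0 : ℕ, ∀ N ≥ N0, ∀ M : Subgroup G, Fill A N M → ∀ z : G,
    (∀ g : G, ∀ n ∈ M, H.len z ≤ H.len (g⁻¹ * (z * n) * g)) → 4 * H.D + 2 ≤ H.len z →
    ∀ u : G, u⁻¹ * z * u ∉ Subgroup.zpowers x → ∀ m : ℕ, 2 * |A.s u 1 (z ^ m)| ≤ N + C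

/-- the corner inequality: `h` is a point of the `M`-invariant set `S` nearest to the axis of `z`,
and `1` is the point of the axis nearest to `h` -/
def Corner (A : Ax H x) : Prop :=
  ∃ C N0 : ℕ, ∀ N ≥ N0, ∀ M : Subgroup G, Fill A N M → ∀ z : G,
    (∀ p : G, H.len z ≤ H.len (p⁻¹ * z * p)) → 4 * H.D + 2 ≤ H.len z →
    ∀ (S : Set G) (h : G), h ∈ S → (∀ m ∈ M, ∀ g ∈ S, m * g ∈ S) →
    (∀ g : G, H.len (g⁻¹ * z * g) ≤ H.len z → ∀ h' ∈ S, H.len h ≤ H.d g h') →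
    ∀ (u : G) (r : ℤ), (C : ℤ) < |A.s u h 1| → (C : ℤ) < |A.s u 1 (z ^ r)| →
    |A.s u h 1 + A.s u 1 (z ^ r)| = |A.s u h 1| + |A.s u 1 (z ^ r)| →
    |A.s u h 1| ≤ abs ((N : ℤ) - |A.s u h 1| - |A.s u 1 (z ^ r)|) + C

/-- fixed points lift, up to powers -/
def KeyK (A : Ax H x) (L : Subgroup G) : Prop :=
  ∃ N0 : ℕ, ∀ N ≥ N0, ∀ (M : Subgroup G) [M.Normal], Fill A N M → ∀ z : G,
    (∀ g : G, ∀ n ∈ M, H.len z ≤ H.len (g⁻¹ * (z * n) * g)) → ¬ IsOfFinOrder (z : G ⧸ M) →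
    ∀ h0 : G, (∃ l ∈ L, l⁻¹ * (h0⁻¹ * z * h0) ∈ M) →
    ∃ m ∈ M, ∃ l ∈ L, ∃ r : ℕ, 1 ≤ r ∧ (m * h0 * l)⁻¹ * z ^ r * (m * h0 * l) ∈ L

/-- `c x ^ n` is not a proper power for large `n` -/
def GamRoot (_A : Ax H x) : Prop :=
  ∀ c : G, c ∉ Subgroup.zpowers x → ∃ n0 : ℕ, ∀ n ≥ n0,
    ∀ (w : G) (j : ℤ), w ^ j = c * x ^ n → j = 1 ∨ j = -1

/-- periodic cosets of `c x ^ n` are periodic for `c x c⁻¹` -/
def GamFix (_A : Ax H x) (L : Subgroup G) : Prop :=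
  ∀ c : G, c ∉ Subgroup.zpowers x → ∃ n0 : ℕ, ∀ n ≥ n0, ∀ h : G, ∀ m : ℤ, m ≠ 0 →
    h⁻¹ * (c * x ^ n) ^ m * h ∈ L → ∃ t : ℤ, t ≠ 0 ∧ h⁻¹ * (c * x ^ t * c⁻¹) * h ∈ L

end props

end Pool.Agent.TH714.TD
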