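import Pool.Agent.TH714.TD.Base
import Pool.Agent.TH65.B.Tower
import Pool.Agent.TH359.J2157
import Pool.Agent.TH359.J2161
import Pool.Agent.TH359.J2320
import Pool.Agent.TH359.J2322
import Pool.Agent.TH359.J2323
import Pool.Agent.TH576.J2160
import Pool.Agent.TH883.TD.J2162
import Pool.Agent.TH883.TD.J2163
import Pool.Agent.TH89.J2155
import Pool.Agent.TH959.J2158
import Pool.Agent.TH989.J2156
import Pool.Agent.TH993.J2159
import Pool.Agent.TH993.J2321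
import Pool.Agent.TH993.J2324

/-!
# The lemmas of the construction, proved by several helpers (helper714)
-/

set_option autoImplicit false

namespace Pool.Agent.TH714.TD

open Pool.Agent.TH64 Pool.Agent.TH65.B

theorem closing {G : Type*} [Group G] {H : Hyp G} {x : G} (A : Ax H x) (L : Subgroup G)
    (hfix : Fixes L x) (hpig : PigL A.toPAx L) : Clos A L :=
  Pool.Agent.TH89.J2155.closing A L hfix hpig

theorem quo_QC {G : Type*} [Group G] {H : Hyp G} {x : G} (A : Ax H x) (L : Subgroup G) (k0 : ℕ)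
    (hL : H.QC (L : Set G) k0) (hcl : Clos A L) : ∃ N0 : ℕ, ∀ N ≥ N0,
    ∀ (M : Subgroup G) [M.Normal], Fill A N M → ∀ H' : Hyp (G ⧸ M),
      (∀ q, H'.len q = H.qlen M q) →
      H'.QC ((L.map (QuotientGroup.mk' M) : Subgroup (G ⧸ M)) : Set (G ⧸ M)) k0 :=
  Pool.Agent.TH989.J2156.quo_QC A L k0 hL hcl

theorem quo_out {G : Type*} [Group G] {H : Hyp G} {x : G} (A : Ax H x) (L : Subgroup G)
    (hcl : Clos A L) (Z : Set G) (hZ : Z.Finite) (hZL : ∀ z ∈ Z, z ∉ L) : ∃ N0 : ℕ, ∀ N ≥ N0,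
    ∀ (M : Subgroup G) [M.Normal], Fill A N M →
      ∀ z ∈ Z, (z : G ⧸ M) ∉ L.map (QuotientGroup.mk' M) :=
  Pool.Agent.TH989.J2156.quo_out A L hcl Z hZ hZL

theorem goodz {G : Type*} [Group G] {H : Hyp G} {x : G} (A : Ax H x) : GoodZ A :=
  Pool.Agent.TH359.J2157.goodz A

theorem corner {G : Type*} [Group G] {H : Hyp G} {x : G} (A : Ax H x) : Corner A :=
  Pool.Agent.TH959.J2158.corner A

theorem keyK {G : Type} [Group G] {H : Hyp G} {x : G} (A : Ax H x) (L : Subgroup G)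
    (hcl : Clos A L) (hgood : GoodZ A) (hcor : Corner A) : KeyK A L :=
  Pool.Agent.TH993.J2159.keyK A L hcl hgood hcor

theorem quo_few {G : Type} [Group G] {H : Hyp G} {x : G} (A : Ax H x) (L : Subgroup G)
    (hkey : KeyK A L) (k : ℕ) (hk : Few L k) : ∃ N0 : ℕ, ∀ N ≥ N0,
    ∀ (M : Subgroup G) [M.Normal], Fill A N M → Few (L.map (QuotientGroup.mk' M)) k :=
  Pool.Agent.TH576.J2160.quo_few A L hkey k hk

theorem neumann {F : Type*} [Group F] {X : Type*} [MulAction F X] (A B : Set X) (hA : A.Finite)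
    (hB : B.Finite) (h : ∀ p ∈ A, (MulAction.orbit F p).Infinite) :
    ∃ g : F, ∀ p ∈ A, g • p ∉ B :=
  Pool.Agent.TH359.J2161.neumann A B hA hB h

theorem wd_chain {G : Type*} [Group G] {H : Hyp G} {x : G} (A : Ax H x) {k : ℕ} (L : Subgroup G)
    (c : G) (a b : Fin k → G) (hpig : PigL A.toPAx L) (hc : c ∉ Subgroup.zpowers x)
    (hS : Sep L x a b) : ∃ B : ℤ, 0 ≤ B ∧ ∀ n : ℕ, ∀ (R : ℕ) (P : ℕ → G) (w : ℕ → Bool × Fin k)
      (l : ℕ → G), 0 < R → Wd L x c n a b R P w l → ∀ p q : G, p⁻¹ * P 0 ∈ L →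
      (P R)⁻¹ * q ∈ L →
      Chn A n B (we x c n a b P w) (wf x c n a b P w) (3 * R) p q :=
  Pool.Agent.TH883.TD.J2162.wd_chain A L c a b hpig hc hS

theorem exists_wd {G : Type*} [Group G] {x : G} {k : ℕ} (hk : 0 < k) (L : Subgroup G) (c : G)
    (a b : Fin k → G) (n : ℕ) (g : G) (hg : g ∈ Lx L x c n a b) :
    ∃ (R : ℕ) (P : ℕ → G) (w : ℕ → Bool × Fin k) (l : ℕ → G),
      P 0 ∈ L ∧ Wd L x c n a b R P w l ∧ P R = g :=
  Pool.Agent.TH883.TD.J2163.exists_wd hk L c a b n g hg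

theorem exists_per {G : Type*} [Group G] {x : G} {k : ℕ} (hk : 0 < k) (L : Subgroup G) (c : G)
    (a b : Fin k → G) (n : ℕ) (σ h : G) (hσ : h⁻¹ * σ * h ∈ Lx L x c n a b)
    (hno : ∀ g ∈ Lx L x c n a b, (h * g)⁻¹ * σ * (h * g) ∉ L) :
    ∃ (R : ℕ) (P : ℕ → G) (w : ℕ → Bool × Fin k) (l : ℕ → G), 0 < R ∧
      h⁻¹ * P 0 ∈ Lx L x c n a b ∧ (∀ r, Wd L x c n a b r P w l) ∧
      (∀ i, P (i + R) = σ * P i) ∧ (∀ i, w (i + R) = w i) :=
  Pool.Agent.TH883.TD.J2163.exists_per hk L c a b n σ h hσ hno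

section gam
variable {G : Type*} [Group G] {H : Hyp G} {x : G} (A : Ax H x)

theorem gam_chain (c : G) (hc : c ∉ Subgroup.zpowers x) : ∃ B : ℤ, 0 ≤ B ∧ ∀ n : ℕ, ∀ R : ℕ, 0 < R →
    Chn A n B (fun i => (c * x ^ n) ^ i * c) (fun i => (c * x ^ n) ^ (i + 1)) R 1
      ((c * x ^ n) ^ R) :=
  Pool.Agent.TH359.J2320.gam_chain A c hc

theorem gam_root : GamRoot A :=
  Pool.Agent.TH359.J2320.gam_root A

theorem gam_fix (L : Subgroup G) (hpig : PigL A.toPAx L) : GamFix A L :=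
  Pool.Agent.TH359.J2320.gam_fix A L hpig

theorem gam_sep (c : G) (hc : c ∉ Subgroup.zpowers x) (L : Subgroup G)
    (hpig : PigL A.toPAx L) (hfree : Free L x) (Z : Set G) (hZ : Z.Finite) :
    ∃ n0 : ℕ, ∀ n ≥ n0, ∀ a ∈ Z, ∀ b ∈ Z, ∀ t : ℤ, t ≠ 0 →
      b⁻¹ * (c * x ^ n) ^ t * a ∉ L :=
  Pool.Agent.TH359.J2320.gam_sep A c hc L hpig hfree Z hZ

include A in
theorem gam_inf (c : G) (hc : c ∉ Subgroup.zpowers x) :
    ∃ n0 : ℕ, ∀ n ≥ n0, ¬ IsOfFinOrder (c * x ^ n) :=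
  Pool.Agent.TH359.J2320.gam_inf A c hc

end gam

theorem core {G : Type} [Group G] {H : Hyp G} {E : ℝ} {Ps : Finset ℕ} (hL : LevP H E Ps)
    (hPs : ∀ p ∈ Ps, p.Prime ∧ Odd p) (hsep : ∀ p ∈ Ps, ∀ q ∈ Ps, ¬ p ∣ q - 1)
    (L : Subgroup G) (k : ℕ) (hk : Few L k)
    (hroot : ∀ (x : G) (A : Ax H x), GamRoot A) (hfix : ∀ (x : G) (A : Ax H x), GamFix A L)
    (hinf : ∀ (x : G) (_ : Ax H x) (c : G), c ∉ Subgroup.zpowers x →
      ∃ n0 : ℕ, ∀ n ≥ n0, ¬ IsOfFinOrder (c * x ^ n))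
    (hneu : ∀ {F : Type} [Group F] {X : Type} [MulAction F X] (A B : Set X), A.Finite → B.Finite →
      (∀ p ∈ A, (MulAction.orbit F p).Infinite) → ∃ g : F, ∀ p ∈ A, g • p ∉ B)
    {F : Type} [Group F] (φ : F →* G) (hφ : ∃ u v : F, φ u * φ v ≠ φ v * φ u)
    (F0 : Subgroup F) [F0.Normal] [F0.FiniteIndex] (C0 : F) :
    ∃ (W : F) (y : G), C0⁻¹ * W ∈ F0 ∧ Nonempty (Ax H y) ∧ (φ W = y ∨ φ W = y⁻¹) ∧
      ∀ u : G, ∀ t : ℤ, t ≠ 0 → u * y ^ t * u⁻¹ ∈ L →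
        {p : G ⧸ L | ∃ w : F, p = ((φ w * u⁻¹ : G) : G ⧸ L)}.Finite :=
  Pool.Agent.TH993.J2321.core hL hPs hsep L k hk hroot hfix hinf hneu φ hφ F0 C0

theorem lx_out {G : Type*} [Group G] {H : Hyp G} {x : G} (A : Ax H x) {k : ℕ} (L : Subgroup G)
    (c : G) (a b : Fin k → G) (hch : WdChain A L c a b) (hwd : ExWd x L c a b)
    (Z : Set G) (hZ : Z.Finite) (hZL : ∀ z ∈ Z, z ∉ L) :
    ∃ n0 : ℕ, ∀ n ≥ n0, ∀ z ∈ Z, z ∉ Lx L x c n a b :=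
  Pool.Agent.TH359.J2322.lx_out A L c a b hch hwd Z hZ hZL

theorem no_mix {G : Type*} [Group G] {H : Hyp G} {x : G} (A : Ax H x) {k : ℕ} (L : Subgroup G)
    (c : G) (a b : Fin k → G) (hch : WdChain A L c a b) (hpig : PigL A.toPAx L)
    (hfree : Free L x) : ∃ n0 : ℕ, ∀ n ≥ n0, ∀ (σ : G) (R : ℕ) (P : ℕ → G)
      (w : ℕ → Bool × Fin k) (l : ℕ → G), 0 < R →
      (∀ r, Wd L x c n a b r P w l) → (∀ i, P (i + R) = σ * P i) → (∀ i, w (i + R) = w i) →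
      ∀ h : G, h⁻¹ * σ * h ∉ L :=
  Pool.Agent.TH359.J2322.no_mix A L c a b hch hpig hfree

theorem lx_QC {G : Type*} [Group G] {H : Hyp G} {x : G} (A : Ax H x) {k : ℕ} (L : Subgroup G)
    (k0 : ℕ) (hL : H.QC (L : Set G) k0) (c : G) (a b : Fin k → G) (hch : WdChain A L c a b)
    (hwd : ExWd x L c a b) : ∃ n0 : ℕ, ∀ n ≥ n0, ∃ k1 : ℕ,
      H.QC (Lx L x c n a b : Set G) k1 :=
  Pool.Agent.TH359.J2323.lx_QC A L k0 hL c a b hch hwd

theorem common_seg {G : Type*} [Group G] {H : Hyp G} {x : G} (A : Ax H x) {k : ℕ} (L : Subgroup G)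
    (c : G) (a b : Fin k → G) (hch : WdChain A L c a b) (hc : c ∉ Subgroup.zpowers x) :
    ∃ n0 : ℕ, ∀ n ≥ n0, ∀ (σ : G) (R R' : ℕ) (P P' : ℕ → G)
      (w w' : ℕ → Bool × Fin k) (l l' : ℕ → G), 0 < R → 0 < R' →
      (∀ r, Wd L x c n a b r P w l) → (∀ i, P (i + R) = σ * P i) → (∀ i, w (i + R) = w i) →
      (∀ r, Wd L x c n a b r P' w' l') → (∀ i, P' (i + R') = σ * P' i) →
      (∀ i, w' (i + R') = w' i) →
      ∃ K : ℕ, ∀ i ≥ K, ∃ i' : ℕ, bs x c n a b (P i) (w i) = bs x c n a b (P' i') (w' i') :=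
  Pool.Agent.TH993.J2324.common_seg A L c a b hch hc

end Pool.Agent.TH714.TD
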